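import Mathlib
import Pool.Agent.H932R7.Stubs

set_option autoImplicit false

/-!
# Adding general simple points
-/

namespace Pool.Agent.H932R7

open Polynomial Pool.Agent.H932R2 Pool.Agent.H932R3

section

variable {K : Type} [Field K]

theorem exists_eval_ne [Infinite K] {f : K[X][X]} (hf : f ≠ 0) :
    ∃ c b : K, (f.eval (C b)).eval c ≠ 0 := by
  have h1 : ∃ b : K, f.eval (C b) ≠ 0 := by
    by_contra h
    push Not at h
    have h2 : (Set.range fun b : K => (C b : K[X])) ⊆ {x | f.IsRoot x} := by
      rintro _ ⟨b, rfl⟩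
      exact h b
    exact hf (Polynomial.eq_zero_of_infinite_isRoot f
      ((Set.infinite_range_of_injective C_injective).mono h2))
  obtain ⟨b, hb⟩ := h1
  obtain ⟨c, hc⟩ : ∃ c : K, (f.eval (C b)).eval c ≠ 0 := by
    by_contra h
    push Not at h
    exact hb (Polynomial.funext fun c => by rw [h c, eval_zero])
  exact ⟨c, b, hc⟩

theorem eval_of_mem {c b : K} {f : K[X][X]} (hf : f ∈ cIdeal (fun _ : Fin 1 => c) (C b) 1) :
    (f.eval (C b)).eval c = 0 := by
  have h1 : cIdeal (fun _ : Fin 1 => c) (C b) 1 ≤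
      RingHom.ker ((evalRingHom c).comp (evalRingHom (C b : K[X]))) := by
    unfold cIdeal
    rw [Submodule.pow_one, Ideal.span_le]
    rintro g (rfl | hg)
    · rw [SetLike.mem_coe, RingHom.mem_ker]
      simp
    · rw [Set.mem_singleton_iff] at hg
      subst hg
      rw [SetLike.mem_coe, RingHom.mem_ker]
      simp [rootPoly]
  exact (RingHom.mem_ker).1 (h1 hf)

theorem cIdeal_le_zero (x : K) (γ γ' : K[X]) (x' : K) (m : ℕ) :
    cIdeal (fun _ : Fin 1 => x) γ m ≤ cIdeal (fun _ : Fin 1 => x') γ' 0 := by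
  have : cIdeal (fun _ : Fin 1 => x') γ' 0 = ⊤ := by
    unfold cIdeal
    simp
  rw [this]
  exact le_top

/-- One more simple point. -/
theorem simple_step (hRK : P_RK) [Infinite K] {ι : Type} [DecidableEq ι] {w : ι → ℕ} {a₀ : ι}
    (hw : w a₀ = 0) (T : Finset (ℕ × ℕ)) {N : ℕ}
    (h : RkS (PF K w) (↑T : Set (ℕ × ℕ)) N) :
    RkS (PF K (Function.update w a₀ 1)) (↑T : Set (ℕ × ℕ)) (min T.card (N + 1)) := by
  obtain ⟨J, ⟨c, γ, rfl⟩, hR⟩ := h
  rw [hRK] at hR
  have hle : ∀ (c₀ b₀ : K), vIdeal 1 (Function.update w a₀ 1) (Function.update c a₀ c₀)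
      (Function.update γ a₀ (C b₀)) ≤ vIdeal 1 w c γ := by
    intro c₀ b₀
    refine iInf_mono fun a => ?_
    by_cases ha : a = a₀
    · subst ha
      rw [hw]
      exact cIdeal_le_zero _ _ _ _ _
    · rw [Function.update_of_ne ha, Function.update_of_ne ha, Function.update_of_ne ha]
  have hfin : Module.Finite K ↥(mspan K (↑T : Set (ℕ × ℕ))) := by
    refine Module.Finite.iff_fg.2 (Submodule.fg_span ?_)
    exact (T.finite_toSet).image _
  by_cases hbot : mspan K (↑T : Set (ℕ × ℕ)) ⊓ Submodule.restrictScalars K (vIdeal 1 w c γ) = ⊥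
  · refine ⟨_, ⟨Function.update c a₀ 0, Function.update γ a₀ (C 0), rfl⟩, ?_⟩
    rw [hRK]
    have h1 : mspan K (↑T : Set (ℕ × ℕ)) ⊓ Submodule.restrictScalars K
        (vIdeal 1 (Function.update w a₀ 1) (Function.update c a₀ 0)
          (Function.update γ a₀ (C 0))) = ⊥ := by
      refine le_bot_iff.1 (hbot ▸ inf_le_inf_left _ ?_)
      exact hle 0 0
    rw [h1, finrank_bot, add_zero]
    exact min_le_left _ _
  · obtain ⟨f, hf, hf0⟩ := Submodule.exists_mem_ne_zero_of_ne_bot hbot
    obtain ⟨c₀, b₀, hcb⟩ := exists_eval_ne hf0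
    refine ⟨_, ⟨Function.update c a₀ c₀, Function.update γ a₀ (C b₀), rfl⟩, ?_⟩
    rw [hRK]
    have hlt : mspan K (↑T : Set (ℕ × ℕ)) ⊓ Submodule.restrictScalars K
        (vIdeal 1 (Function.update w a₀ 1) (Function.update c a₀ c₀)
          (Function.update γ a₀ (C b₀))) <
        mspan K (↑T : Set (ℕ × ℕ)) ⊓ Submodule.restrictScalars K (vIdeal 1 w c γ) := by
      refine lt_of_le_of_ne (inf_le_inf_left _ (hle c₀ b₀)) fun heq => hcb ?_
      rw [← heq] at hf
      have h2 := (Submodule.mem_inf.1 hf).2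
      rw [Submodule.restrictScalars_mem] at h2
      unfold vIdeal at h2
      rw [Ideal.mem_iInf] at h2
      have h3 := h2 a₀
      rw [Function.update_self, Function.update_self, Function.update_self] at h3
      exact eval_of_mem h3
    have hfin2 : Module.Finite K ↥(mspan K (↑T : Set (ℕ × ℕ)) ⊓
        Submodule.restrictScalars K (vIdeal 1 w c γ)) :=
      Submodule.finiteDimensional_of_le inf_le_left
    have h4 := Submodule.finrank_lt_finrank_of_lt hlt
    have h5 := min_le_right T.card (N + 1)
    omega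

theorem simple_set (hRK : P_RK) [Infinite K] {ι : Type} [DecidableEq ι] (T : Finset (ℕ × ℕ))
    (S : Finset ι) : ∀ (w : ι → ℕ) (N : ℕ), (∀ a ∈ S, w a = 0) →
    RkS (PF K w) (↑T : Set (ℕ × ℕ)) N →
    RkS (PF K (fun a => if a ∈ S then 1 else w a)) (↑T : Set (ℕ × ℕ))
      (min T.card (N + S.card)) := by
  induction S using Finset.induction_on with
  | empty =>
    intro w N _ h
    have h1 : (fun a => if a ∈ (∅ : Finset ι) then 1 else w a) = w := by
      funext a
      simp
    rw [h1, Finset.card_empty, add_zero]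
    exact RkS.le (min_le_right _ _) h
  | insert a S ha ih =>
    intro w N hw h
    have h1 := ih w N (fun b hb => hw b (Finset.mem_insert_of_mem hb)) h
    have h2 := simple_step hRK (a₀ := a)
      (w := fun a => if a ∈ S then 1 else w a)
      (by simp only [if_neg ha]; exact hw a (Finset.mem_insert_self a S)) T h1
    have h3 : Function.update (fun a => if a ∈ S then 1 else w a) a 1 =
        fun b => if b ∈ insert a S then 1 else w b := by
      funext b
      by_cases hb : b = a
      · subst hb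
        rw [Function.update_self, if_pos (Finset.mem_insert_self _ _)]
      · rw [Function.update_of_ne hb]
        simp only [Finset.mem_insert, hb, false_or]
    rw [h3] at h2
    refine RkS.le ?_ h2
    rw [Finset.card_insert_of_notMem ha]
    omega

end

end Pool.Agent.H932R7
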