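import Mathlib
import Pool.Agent.H932R7.Simple

set_option autoImplicit false

/-!
# The main theorem, with arbitrarily many simple points
-/

namespace Pool.Agent.H932R7

open Polynomial Pool.Agent.H932R2 Pool.Agent.H932R3

/-- The multiplicities with the simple points removed. -/
def w2 {ι : Type} (w : ι → ℕ) : ι → ℕ := fun a => if w a = 1 then 0 else w a

theorem Aw_w2 {ι : Type} [Fintype ι] (w : ι → ℕ) :
    Aw w = Aw (w2 w) + (Finset.univ.filter fun a => w a = 1).card := by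
  classical
  unfold Aw w2
  rw [Finset.card_filter, ← Finset.sum_add_distrib]
  refine Finset.sum_congr rfl fun a _ => ?_
  by_cases h : w a = 1
  · rw [if_pos h, if_pos h, h]
    rfl
  · rw [if_neg h, if_neg h, add_zero]

theorem rk_simple (hRK : P_RK) {K : Type} [Field K] [Infinite K] {ι : Type} [Fintype ι]
    {w : ι → ℕ} (T : Finset (ℕ × ℕ)) {N : ℕ}
    (h : RkS (PF K (w2 w)) (↑T : Set (ℕ × ℕ)) N) :
    RkS (PF K w) (↑T : Set (ℕ × ℕ))
      (min T.card (N + (Finset.univ.filter fun a => w a = 1).card)) := by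
  classical
  have h1 := simple_set hRK T (Finset.univ.filter fun a => w a = 1) (w2 w) N
    (fun a ha => by
      have h2 := (Finset.mem_filter.1 ha).2
      unfold w2
      rw [if_pos h2]) h
  have h3 : (fun a => if a ∈ (Finset.univ.filter fun a => w a = 1) then 1 else w2 w a) = w := by
    funext a
    unfold w2
    simp only [Finset.mem_filter, Finset.mem_univ, true_and]
    by_cases h : w a = 1
    · rw [if_pos h, h]
    · rw [if_neg h, if_neg h]
  rw [h3] at h1
  exact h1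

theorem exp_of_indep (hH : P_HOP) {L : Type} [Field L] [CharZero L] {n : ℕ} {w : Fin n → ℕ}
    {f : ℕ} (h : RkS (PF ℚ w) (Tset f) (Aw w)) :
    ∃ F : MvPolynomial (Fin n × Fin 2) ℚ, F ≠ 0 ∧ ∀ P : Fin n → Fin 2 → L,
      MvPolynomial.aeval (fun ij : Fin n × Fin 2 => P ij.1 ij.2) F ≠ 0 →
        ∀ d : ℕ, f ≤ d → ExpDim L w P d := by
  classical
  obtain ⟨F, hF, hF'⟩ := hH L n w _ _ h
  refine ⟨F, hF, fun P hP d hd => ?_⟩
  have h3 := hF' _ hP
  have hsum : ∑ a, (EE 1 (w a)).card = ∑ i, (w i + 1).choose 2 :=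
    Finset.sum_congr rfl fun i _ => card_EE_eq (w i)
  have h5 := finrank_indep (f := f) (by rw [hsum]; exact h3) d hd
  rw [hsum] at h5
  unfold ExpDim
  rw [← h5]
  refine finrank_forms _ _ fun F hF => ?_
  rw [Submodule.restrictScalars_mem, Submodule.restrictScalars_mem]
  unfold vIdeal
  rw [Ideal.mem_iInf, Ideal.mem_iInf]
  exact forall_congr' fun i => mem_ptIdeal_iff hF

theorem exp_of_full (hH : P_HOP) {L : Type} [Field L] [CharZero L] {n : ℕ} {w : Fin n → ℕ}
    {e : ℕ} (h : RkS (PF ℚ w) (Tset e) (Tfin e).card) :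
    ∃ F : MvPolynomial (Fin n × Fin 2) ℚ, F ≠ 0 ∧ ∀ P : Fin n → Fin 2 → L,
      MvPolynomial.aeval (fun ij : Fin n × Fin 2 => P ij.1 ij.2) F ≠ 0 →
        ∀ d : ℕ, d ≤ e → ExpDim L w P d := by
  classical
  obtain ⟨F, hF, hF'⟩ := hH L n w _ _ h
  refine ⟨F, hF, fun P hP d hd => ?_⟩
  have h3 := hF' _ hP
  have hsum : ∑ a, (EE 1 (w a)).card = ∑ i, (w i + 1).choose 2 :=
    Finset.sum_congr rfl fun i _ => card_EE_eq (w i)
  have h5 := finrank_full h3 d hd
  rw [hsum] at h5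
  unfold ExpDim
  rw [← h5]
  refine finrank_forms _ _ fun F hF => ?_
  rw [Submodule.restrictScalars_mem, Submodule.restrictScalars_mem]
  unfold vIdeal
  rw [Ideal.mem_iInf, Ideal.mem_iInf]
  exact forall_congr' fun i => mem_ptIdeal_iff hF

theorem Big.mono {m X Y : ℕ} (h : Big m X) (hXY : X ≤ Y) : Big m Y := by
  unfold Big at h ⊢
  exact h.trans (by exact_mod_cast hXY)

theorem card_Tfin' (d : ℕ) : (Tfin d).card = (d + 2).choose 2 := by
  have h4 := card_Tfin d
  have h5 : (d + 2).choose 2 * 2 = (d + 2) * (d + 1) := by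
    rw [Nat.choose_two_right, Nat.div_mul_cancel (Nat.even_mul_pred_self _).two_dvd]
    rfl
  linarith

theorem two_choose (d : ℕ) : 2 * (d + 2).choose 2 = (d + 1) * (d + 2) := by
  have h5 : (d + 2).choose 2 * 2 = (d + 2) * (d + 1) := by
    rw [Nat.choose_two_right, Nat.div_mul_cancel (Nat.even_mul_pred_self _).two_dvd]
    rfl
  linarith

theorem three_choose (m : ℕ) : 3 * (2 * (m + 1).choose 3) + m = m * m * m := by
  induction m with
  | zero => rfl
  | succ m ih =>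
    have h1 : (m + 1 + 1).choose 3 = (m + 1).choose 2 + (m + 1).choose 3 :=
      Nat.choose_succ_succ' (m + 1) 2
    have h2 : (m + 1).choose 2 * 2 = (m + 1) * m := by
      rw [Nat.choose_two_right, Nat.div_mul_cancel (Nat.even_mul_pred_self _).two_dvd]
      rfl
    rw [h1]
    have h3 : 3 * (2 * ((m + 1).choose 2 + (m + 1).choose 3)) + (m + 1) =
        (3 * (2 * (m + 1).choose 3) + m) + 3 * ((m + 1).choose 2 * 2) + 1 := by ring
    rw [h3, ih, h2]
    ring

theorem fin2 (hFIN : P_FIN) (hR : P_RANKS) (hH : P_HOP) (hRK : P_RK) (L : Type) [Field L]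
    [CharZero L] (n : ℕ) (w : Fin n → ℕ) (m : ℕ) (hm : 0 < m) (hw : ∀ a, w a ≤ m) :
    ∃ F : MvPolynomial (Fin n × Fin 2) ℚ, F ≠ 0 ∧ ∀ P : Fin n → Fin 2 → L,
      MvPolynomial.aeval (fun ij : Fin n × Fin 2 => P ij.1 ij.2) F ≠ 0 →
        ∀ d : ℕ, (Big m ((d + 1) * (d + 2)) ∨ Big m (Aw w)) →
          (Aw (w2 w) + 2 * (m + 1).choose 3 ≤ (d + 2).choose 2 ∨
            (d + 2).choose 2 + 2 * (m + 1).choose 3 ≤ Aw w) → ExpDim L w P d := by
  classical
  obtain ⟨W, hW⟩ : ∃ W, W = 2 * (m + 1).choose 3 := ⟨_, rfl⟩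
  obtain ⟨n1, hn1⟩ : ∃ n1, n1 = (Finset.univ.filter fun a => w a = 1).card := ⟨_, rfl⟩
  have hA := Aw_w2 w
  rw [← hn1] at hA
  -- the first degree
  have hex : ∃ d, Big m ((d + 1) * (d + 2)) ∧ Aw (w2 w) + W ≤ (d + 2).choose 2 := by
    obtain ⟨X, hX⟩ := exists_nat_ge ((m : ℝ) * (m + 1) * (m + 6 * Real.sqrt m + 10))
    refine ⟨X + (Aw (w2 w) + W), ?_, ?_⟩
    · unfold Big
      refine hX.trans ?_
      have : X ≤ (X + (Aw (w2 w) + W) + 1) * (X + (Aw (w2 w) + W) + 2) := by nlinarith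
      exact_mod_cast this
    · have h1 := two_choose (X + (Aw (w2 w) + W))
      nlinarith
  obtain ⟨h0a, h0b⟩ := Nat.find_spec hex
  obtain ⟨d0, hd0⟩ : ∃ d0, d0 = Nat.find hex := ⟨_, rfl⟩
  rw [← hd0] at h0a h0b
  have hmono : ∀ {a b : ℕ}, a ≤ b → (a + 1) * (a + 2) ≤ (b + 1) * (b + 2) := fun h =>
    Nat.mul_le_mul (by omega) (by omega)
  have hcm : ∀ {a b : ℕ}, a ≤ b → (a + 2).choose 2 ≤ (b + 2).choose 2 := fun h =>
    Nat.choose_le_choose 2 (by omega)
  have hw2 : ∀ a, w2 w a ≤ m := by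
    intro a
    unfold w2
    split_ifs
    · exact Nat.zero_le _
    · exact hw a
  have hrank : ∀ d, d0 ≤ d → RkS (PF ℚ w) (Tset d) (min ((d + 2).choose 2) (Aw w)) := by
    intro d hd
    have h1 := (hR ℚ n (w2 w) m d hm hw2 (h0a.mono (hmono hd))).1
      (by rw [← hW]; exact h0b.trans (hcm hd))
    rw [← coe_Tfin] at h1 ⊢
    have h2 := rk_simple hRK (Tfin d) h1
    rw [card_Tfin', ← hn1, ← hA] at h2
    exact h2
  have hex2 : ∃ d, d0 ≤ d ∧ Aw w ≤ (d + 2).choose 2 := by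
    refine ⟨d0 + Aw w, by omega, ?_⟩
    have h1 := two_choose (d0 + Aw w)
    nlinarith
  obtain ⟨hfa, hfb⟩ := Nat.find_spec hex2
  have hfmin := fun d => Nat.find_min hex2 (m := d)
  obtain ⟨f, hf⟩ : ∃ f, f = Nat.find hex2 := ⟨_, rfl⟩
  rw [← hf] at hfa hfb hfmin
  have hr1 := hrank f hfa
  rw [min_eq_right hfb] at hr1
  obtain ⟨F1, hF1, hF1'⟩ := exp_of_indep (L := L) hH hr1
  obtain ⟨F2, hF2, hF2'⟩ := hFIN L n w m hm hw
  obtain ⟨F3, hF3, hF3'⟩ : ∃ F : MvPolynomial (Fin n × Fin 2) ℚ, F ≠ 0 ∧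
      ∀ P : Fin n → Fin 2 → L,
      MvPolynomial.aeval (fun ij : Fin n × Fin 2 => P ij.1 ij.2) F ≠ 0 →
        ∀ d : ℕ, d0 < f → d < f → ExpDim L w P d := by
    rcases Nat.lt_or_ge d0 f with h | h
    · have h1 := hrank (f - 1) (by omega)
      have h2 := hfmin (f - 1) (by omega)
      have h3 : (f - 1 + 2).choose 2 < Aw w := by
        by_contra h4
        exact h2 ⟨by omega, by omega⟩
      rw [min_eq_left h3.le, ← card_Tfin'] at h1
      obtain ⟨F, hF, hF'⟩ := exp_of_full (L := L) hH h1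
      exact ⟨F, hF, fun P hP d _ hd => hF' P hP d (by omega)⟩
    · exact ⟨1, one_ne_zero, fun P _ d h1 _ => absurd h1 (by omega)⟩
  refine ⟨F1 * F2 * F3, mul_ne_zero (mul_ne_zero hF1 hF2) hF3, fun P hP d hd1 hd2 => ?_⟩
  rw [map_mul, map_mul] at hP
  have hP3 := right_ne_zero_of_mul hP
  have hP1 := left_ne_zero_of_mul (left_ne_zero_of_mul hP)
  have hP2 := right_ne_zero_of_mul (left_ne_zero_of_mul hP)
  rcases hd2 with hd2 | hd2
  · by_cases hB : Big m ((d + 1) * (d + 2))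
    · have h1 : d0 ≤ d := by
        rw [hd0]
        exact Nat.find_min' hex ⟨hB, by rw [hW]; exact hd2⟩
      rcases Nat.lt_or_ge d f with h | h
      · exact hF3' P hP3 d (by omega) h
      · exact hF1' P hP1 d h
    · have hBA : Big m (Aw w) := hd1.resolve_left hB
      refine hF2' P hP2 d (Or.inr hBA) (Or.inr ?_)
      -- C + W ≤ A
      have h1 := two_choose d
      have h3 := three_choose m
      unfold Big at hB hBA
      push Not at hB
      have hs : 0 ≤ Real.sqrt m := Real.sqrt_nonneg _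
      have hmR : (1 : ℝ) ≤ m := by exact_mod_cast hm
      have h4 : (2 : ℝ) * ((d + 2).choose 2 : ℕ) < (m : ℝ) * (m + 1) * (m + 6 * Real.sqrt m + 10) := by
        have : ((2 * (d + 2).choose 2 : ℕ) : ℝ) = (((d + 1) * (d + 2) : ℕ) : ℝ) := by
          rw [h1]
        push_cast at this hB
        push_cast
        linarith
      have h5 : (3 : ℝ) * ((2 * (m + 1).choose 3 : ℕ) : ℝ) + m = m * m * m := by
        exact_mod_cast h3
      have h6 : (m : ℝ) * m * m ≤ (m : ℝ) * (m + 1) * (m + 6 * Real.sqrt m + 10) := by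
        have h7 : (m : ℝ) * m ≤ m * (m + 1) := by nlinarith
        have h8 : (m : ℝ) ≤ m + 6 * Real.sqrt m + 10 := by linarith
        exact mul_le_mul h7 h8 (by linarith) (by positivity)
      have h9 : (((d + 2).choose 2 + 2 * (m + 1).choose 3 : ℕ) : ℝ) ≤ ((Aw w : ℕ) : ℝ) := by
        rw [Nat.cast_add]
        linarith
      exact_mod_cast h9
  · exact hF2' P hP2 d hd1 (Or.inr hd2)

end Pool.Agent.H932R7
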