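import Mathlib
import Pool.Agent.H932R7.Stubs3
import Pool.Agent.H932R7.Fin2

set_option autoImplicit false

/-!
# The main theorem without exceptional degree, with arbitrarily many simple points
-/

namespace Pool.Agent.H932R7

open Polynomial Pool.Agent.H932R2 Pool.Agent.H932R3

theorem fin_gen (hH : P_HOP) (L : Type) [Field L]
    [CharZero L] (n : ℕ) (w : Fin n → ℕ) (m : ℕ) (hm : 0 < m)
    (hR : ∀ d, Big m ((d + 1) * (d + 2)) →
      RkS (PF ℚ w) (Tset d) (min ((d + 2).choose 2) (Aw w))) :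
    ∃ F : MvPolynomial (Fin n × Fin 2) ℚ, F ≠ 0 ∧ ∀ P : Fin n → Fin 2 → L,
      MvPolynomial.aeval (fun ij : Fin n × Fin 2 => P ij.1 ij.2) F ≠ 0 →
        ∀ d : ℕ, (Big m ((d + 1) * (d + 2)) ∨ Big m (Aw w)) → ExpDim L w P d := by
  classical
  have hex : ∃ d, Big m ((d + 1) * (d + 2)) := by
    obtain ⟨X, hX⟩ := exists_nat_ge ((m : ℝ) * (m + 1) * (m + 6 * Real.sqrt m + 10))
    refine ⟨X, ?_⟩
    unfold Big
    refine hX.trans ?_
    have : X ≤ (X + 1) * (X + 2) := by nlinarith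
    exact_mod_cast this
  have h1a := Nat.find_spec hex
  have h1m := fun d => Nat.find_min hex (m := d)
  obtain ⟨d1, hd1⟩ : ∃ d1, d1 = Nat.find hex := ⟨_, rfl⟩
  rw [← hd1] at h1a h1m
  have hmono : ∀ {a b : ℕ}, a ≤ b → (a + 1) * (a + 2) ≤ (b + 1) * (b + 2) := fun h =>
    Nat.mul_le_mul (by omega) (by omega)
  have hex2 : ∃ d, d1 ≤ d ∧ Aw w ≤ (d + 2).choose 2 := by
    refine ⟨d1 + Aw w, by omega, ?_⟩
    have h1 := two_choose (d1 + Aw w)
    nlinarith
  obtain ⟨hfa, hfb⟩ := Nat.find_spec hex2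
  have hfmin := fun d => Nat.find_min hex2 (m := d)
  obtain ⟨f, hf⟩ : ∃ f, f = Nat.find hex2 := ⟨_, rfl⟩
  rw [← hf] at hfa hfb hfmin
  have hr1 := hR f (h1a.mono (hmono hfa))
  rw [min_eq_right hfb] at hr1
  obtain ⟨F1, hF1, hF1'⟩ := exp_of_indep (L := L) hH hr1
  obtain ⟨F3, hF3, hF3'⟩ : ∃ F : MvPolynomial (Fin n × Fin 2) ℚ, F ≠ 0 ∧
      ∀ P : Fin n → Fin 2 → L,
      MvPolynomial.aeval (fun ij : Fin n × Fin 2 => P ij.1 ij.2) F ≠ 0 →
        ∀ d : ℕ, d1 < f → d < f → ExpDim L w P d := by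
    rcases Nat.lt_or_ge d1 f with h | h
    · have h2 := hfmin (f - 1) (by omega)
      have h3 : (f - 1 + 2).choose 2 < Aw w := by
        by_contra h4
        exact h2 ⟨by omega, by omega⟩
      have hr2 := hR (f - 1) (h1a.mono (hmono (by omega)))
      rw [min_eq_left h3.le, ← card_Tfin'] at hr2
      obtain ⟨F, hF, hF'⟩ := exp_of_full (L := L) hH hr2
      exact ⟨F, hF, fun P hP d _ hd => hF' P hP d (by omega)⟩
    · exact ⟨1, one_ne_zero, fun P _ d h1 _ => absurd h1 (by omega)⟩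
  refine ⟨F1 * F3, mul_ne_zero hF1 hF3, fun P hP d hd => ?_⟩
  rw [map_mul] at hP
  have hP1 := left_ne_zero_of_mul hP
  have hP3 := right_ne_zero_of_mul hP
  rcases Nat.lt_or_ge d f with h | h
  swap
  · exact hF1' P hP1 d h
  refine hF3' P hP3 d ?_ h
  -- d1 < f
  by_cases hB : Big m ((d + 1) * (d + 2))
  · have h1 : d1 ≤ d := by
      rw [hd1]
      exact Nat.find_min' hex hB
    omega
  · have hBA : Big m (Aw w) := hd.resolve_left hB
    by_contra hlt
    have hfd : f = d1 := by omega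
    rw [hfd] at hfb
    have h2 := two_choose d1
    -- H ≤ A ≤ N_{d1}, so H ≤ (d1+1)(d1+2)/2, but d1 (d1 + 1) < H
    have hs : 0 ≤ Real.sqrt m := Real.sqrt_nonneg _
    have hmR : (1 : ℝ) ≤ m := by exact_mod_cast hm
    have hH34 : (22 : ℝ) ≤ (m : ℝ) * (m + 1) * (m + 6 * Real.sqrt m + 10) := by
      have h7 : (2 : ℝ) ≤ (m : ℝ) * (m + 1) := by nlinarith
      have h8 : (11 : ℝ) ≤ m + 6 * Real.sqrt m + 10 := by linarith
      calc (22 : ℝ) = 2 * 11 := by norm_num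
        _ ≤ (m : ℝ) * (m + 1) * (m + 6 * Real.sqrt m + 10) :=
          mul_le_mul h7 h8 (by norm_num) (by linarith)
    have h3 : (m : ℝ) * (m + 1) * (m + 6 * Real.sqrt m + 10) ≤ ((d1 + 2).choose 2 : ℕ) := by
      unfold Big at hBA
      exact hBA.trans (by exact_mod_cast hfb)
    have h4 : (2 : ℝ) * ((d1 + 2).choose 2 : ℕ) = (d1 + 1) * (d1 + 2) := by
      exact_mod_cast h2
    rcases Nat.eq_zero_or_pos d1 with h0 | h0
    · rw [h0] at h4
      push_cast at h4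
      rw [h0] at h3
      push_cast at h3
      linarith
    · have h5 := h1m (d1 - 1) (by omega)
      unfold Big at h5
      push Not at h5
      obtain ⟨e, rfl⟩ : ∃ e, d1 = e + 1 := ⟨d1 - 1, by omega⟩
      rw [Nat.add_sub_cancel] at h5
      push_cast at h4 h5
      have he : (0 : ℝ) ≤ e := Nat.cast_nonneg e
      nlinarith

theorem rank4 (hR4 : P_R4) (hRK : P_RK) (n : ℕ) (w : Fin n → ℕ) (k₀ m n₀ : ℕ) (hk : 0 < k₀)
    (hkm : k₀ ≤ m) (hw : ∀ a, w a ≤ 1 ∨ (k₀ ≤ w a ∧ w a ≤ m))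
    (hn₀ : n₀ = Nat.card {a // w a = k₀})
    (hsize : 2 * (m * (m + 1) * (m + 2)) + k₀ * (k₀ + 1) ≤ n₀ * (k₀ * (k₀ + 1)))
    (d : ℕ) (hB : Big m ((d + 1) * (d + 2))) :
    RkS (PF ℚ w) (Tset d) (min ((d + 2).choose 2) (Aw w)) := by
  classical
  rcases Nat.lt_or_ge k₀ 2 with h1 | h1
  · have h2 : k₀ = 1 := by omega
    subst h2
    obtain ⟨h3, h4⟩ := hR4 ℚ 1 m hk hkm n w (fun a => by
      rcases hw a with h | h
      · rcases Nat.eq_zero_or_pos (w a) with h0 | h0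
        · exact Or.inl h0
        · exact Or.inr ⟨h0, h.trans hkm⟩
      · exact Or.inr h) n₀ d hn₀ hB hsize
    rcases le_total (Aw w) ((d + 2).choose 2) with h | h
    · rw [min_eq_right h]
      exact h3 h
    · rw [min_eq_left h, ← card_Tfin']
      exact h4 h
  · have hw2 : ∀ a, w2 w a = 0 ∨ (k₀ ≤ w2 w a ∧ w2 w a ≤ m) := by
      intro a
      unfold w2
      split_ifs with h2
      · exact Or.inl rfl
      · rcases hw a with h | h
        · left; omega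
        · exact Or.inr h
    have hn₀' : n₀ = Nat.card {a // w2 w a = k₀} := by
      rw [hn₀]
      have : ∀ a, w a = k₀ ↔ w2 w a = k₀ := by
        intro a
        unfold w2
        split_ifs with h2
        · constructor <;> intro h <;> omega
        · exact Iff.rfl
      exact Nat.card_congr (Equiv.subtypeEquivRight this)
    obtain ⟨h3, h4⟩ := hR4 ℚ k₀ m hk hkm n (w2 w) hw2 n₀ d hn₀' hB hsize
    have h5 : RkS (PF ℚ (w2 w)) (Tset d) (min ((d + 2).choose 2) (Aw (w2 w))) := by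
      rcases le_total (Aw (w2 w)) ((d + 2).choose 2) with h | h
      · rw [min_eq_right h]
        exact h3 h
      · rw [min_eq_left h, ← card_Tfin']
        exact h4 h
    rw [← coe_Tfin] at h5 ⊢
    have h6 := rk_simple hRK (Tfin d) h5
    have hA := Aw_w2 w
    have h7 : min (Tfin d).card (min ((d + 2).choose 2) (Aw (w2 w)) +
        (Finset.univ.filter fun a => w a = 1).card) = min ((d + 2).choose 2) (Aw w) := by
      rw [card_Tfin']
      omega
    rw [h7] at h6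
    exact h6

theorem fin4 (hR4 : P_R4) (hH : P_HOP) (hRK : P_RK) (L : Type) [Field L]
    [CharZero L] (n : ℕ) (w : Fin n → ℕ) (k₀ m n₀ : ℕ) (hk : 0 < k₀) (hkm : k₀ ≤ m)
    (hw : ∀ a, w a ≤ 1 ∨ (k₀ ≤ w a ∧ w a ≤ m)) (hn₀ : n₀ = Nat.card {a // w a = k₀})
    (hsize : 2 * (m * (m + 1) * (m + 2)) + k₀ * (k₀ + 1) ≤ n₀ * (k₀ * (k₀ + 1))) :
    ∃ F : MvPolynomial (Fin n × Fin 2) ℚ, F ≠ 0 ∧ ∀ P : Fin n → Fin 2 → L,
      MvPolynomial.aeval (fun ij : Fin n × Fin 2 => P ij.1 ij.2) F ≠ 0 →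
        ∀ d : ℕ, (Big m ((d + 1) * (d + 2)) ∨ Big m (Aw w)) → ExpDim L w P d :=
  fin_gen hH L n w m (by omega) fun d hB =>
    rank4 hR4 hRK n w k₀ m n₀ hk hkm hw hn₀ hsize d hB

end Pool.Agent.H932R7
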