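import Mathlib
import Pool.Agent.H932R7.Fin4

set_option autoImplicit false

/-!
# Arbitrary bounded multiplicities: the two main theorems together
-/

namespace Pool.Agent.H932R7

open Polynomial Pool.Agent.H932R2 Pool.Agent.H932R3

theorem Aw_w2_eq {ι : Type} [Fintype ι] (w : ι → ℕ) :
    Aw (w2 w) = ∑ i ∈ Finset.univ.filter (fun i => w i ≠ 1), (w i + 1).choose 2 := by
  classical
  unfold Aw w2
  rw [Finset.sum_filter]
  refine Finset.sum_congr rfl fun a _ => ?_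
  by_cases h : w a = 1
  · rw [if_pos h, if_neg (by simpa using h)]
    rfl
  · rw [if_neg h, if_pos h]

theorem big_max {m X Y : ℕ}
    (h : (m : ℝ) * (m + 1) * (m + 6 * Real.sqrt m + 10) ≤ ((max X Y : ℕ) : ℝ)) :
    Big m X ∨ Big m Y := by
  unfold Big
  rcases le_total X Y with h1 | h1
  · rw [max_eq_right h1] at h
    exact Or.inr h
  · rw [max_eq_left h1] at h
    exact Or.inl h

theorem fin_all (hFIN : P_FIN) (hR : P_RANKS) (hH : P_HOP) (hRK : P_RK) (hR4 : P_R4)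
    (L : Type) [Field L] [CharZero L] (n : ℕ) (w : Fin n → ℕ) (m : ℕ) (hm : 0 < m)
    (hw : ∀ a, w a ≤ m) :
    ∃ F : MvPolynomial (Fin n × Fin 2) ℚ, F ≠ 0 ∧ ∀ P : Fin n → Fin 2 → L,
      MvPolynomial.aeval (fun ij : Fin n × Fin 2 => P ij.1 ij.2) F ≠ 0 →
        ∀ d : ℕ, (m : ℝ) * (m + 1) * (m + 6 * Real.sqrt m + 10) ≤
            ((max ((d + 1) * (d + 2)) (∑ i, (w i + 1).choose 2) : ℕ) : ℝ) →
          ((∑ i ∈ Finset.univ.filter (fun i => w i ≠ 1), (w i + 1).choose 2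
                + 2 * (m + 1).choose 3 ≤ (d + 2).choose 2 ∨
            (d + 2).choose 2 + 2 * (m + 1).choose 3 ≤ ∑ i, (w i + 1).choose 2) ∨
            ∃ k : ℕ, 0 < k ∧ (∀ i, w i ≤ 1 ∨ k ≤ w i) ∧
              2 * (m * (m + 1) * (m + 2)) + k * (k + 1) ≤
                (Finset.univ.filter fun i => w i = k).card * (k * (k + 1))) →
          ExpDim L w P d := by
  classical
  obtain ⟨F1, hF1, hF1'⟩ := fin2 hFIN hR hH hRK L n w m hm hw
  obtain ⟨F2, hF2, hF2'⟩ : ∃ F : MvPolynomial (Fin n × Fin 2) ℚ, F ≠ 0 ∧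
      ∀ P : Fin n → Fin 2 → L,
      MvPolynomial.aeval (fun ij : Fin n × Fin 2 => P ij.1 ij.2) F ≠ 0 →
        (∃ k : ℕ, 0 < k ∧ (∀ i, w i ≤ 1 ∨ k ≤ w i) ∧
              2 * (m * (m + 1) * (m + 2)) + k * (k + 1) ≤
                (Finset.univ.filter fun i => w i = k).card * (k * (k + 1))) →
        ∀ d : ℕ, (Big m ((d + 1) * (d + 2)) ∨ Big m (Aw w)) → ExpDim L w P d := by
    by_cases hk : ∃ k : ℕ, 0 < k ∧ (∀ i, w i ≤ 1 ∨ k ≤ w i) ∧
              2 * (m * (m + 1) * (m + 2)) + k * (k + 1) ≤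
                (Finset.univ.filter fun i => w i = k).card * (k * (k + 1))
    · obtain ⟨k, hk0, hk1, hk2⟩ := hk
      have hne : 0 < (Finset.univ.filter fun i => w i = k).card := by
        by_contra h0
        rw [Nat.eq_zero_of_not_pos h0] at hk2
        have : 0 < k * (k + 1) := by positivity
        omega
      obtain ⟨i, hi⟩ := Finset.card_pos.1 hne
      have hkm : k ≤ m := (Finset.mem_filter.1 hi).2 ▸ hw i
      obtain ⟨F, hF, hF'⟩ := fin4 hR4 hH hRK L n w k m (Nat.card {a // w a = k}) hk0 hkm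
        (fun a => (hk1 a).imp_right fun h => ⟨h, hw a⟩) rfl (by
          rw [Nat.card_eq_fintype_card, Fintype.card_subtype]
          exact hk2)
      exact ⟨F, hF, fun P hP _ d hd => hF' P hP d hd⟩
    · exact ⟨1, one_ne_zero, fun P _ h => absurd h hk⟩
  refine ⟨F1 * F2, mul_ne_zero hF1 hF2, fun P hP d hd1 hd2 => ?_⟩
  rw [map_mul] at hP
  have hP1 := left_ne_zero_of_mul hP
  have hP2 := right_ne_zero_of_mul hP
  have hB : Big m ((d + 1) * (d + 2)) ∨ Big m (Aw w) := big_max hd1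
  rcases hd2 with hd2 | hd2
  · refine hF1' P hP1 d hB ?_
    rw [Aw_w2_eq]
    exact hd2
  · exact hF2' P hP2 hd2 d hB

end Pool.Agent.H932R7
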