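import Mathlib
import Pool.Agent.H932R7.Stubs
import Pool.Agent.H932R7.Stubs3

set_option autoImplicit false

/-!
# Ranks in every degree
-/

namespace Pool.Agent.H932R7

open Polynomial Pool.Agent.H932R2 Pool.Agent.H932R3

namespace R4h

theorem two_choose (k : ℕ) : 2 * (k + 1).choose 2 = k * (k + 1) := by
  induction k with
  | zero => simp
  | succ k ih =>
    rw [Nat.choose_succ_succ' (k + 1) 1, Nat.choose_one_right]
    nlinarith

theorem three_choose (m : ℕ) : 3 * (2 * (m + 1).choose 3) + m = m * m * m := by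
  induction m with
  | zero => rfl
  | succ m ih =>
    rw [Nat.choose_succ_succ' (m + 1) 2]
    have := two_choose m
    nlinarith

/-- the number of conditions of the nonzero multiplicities together with `x` more points -/
theorem Aw_sum {n : ℕ} (w : Fin n → ℕ) (x k : ℕ) :
    Aw (Sum.elim (fun a : {a : Fin n // w a ≠ 0} => w a) (fun _ : Fin x => k)) =
      Aw w + x * (k + 1).choose 2 := by
  unfold Aw
  rw [Fintype.sum_sum_type]
  simp only [Sum.elim_inl, Sum.elim_inr, Finset.sum_const, Finset.card_univ, Fintype.card_fin,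
    smul_eq_mul]
  congr 1
  rw [← Finset.sum_subtype (Finset.univ.filter fun a => w a ≠ 0) (by simp)
    (fun a => (w a + 1).choose 2)]
  rw [Finset.sum_filter]
  refine Finset.sum_congr rfl fun a _ => ?_
  split_ifs with h1
  · rfl
  · rw [not_not.1 h1]
    rfl

/-- the number of conditions after the removal of a set of points -/
theorem Aw_rem {n : ℕ} (w : Fin n → ℕ) (S : Finset (Fin n)) (k : ℕ) (hS : ∀ a ∈ S, w a = k) :
    Aw (fun a : {a : Fin n // w a ≠ 0 ∧ a ∉ S} => w a) + S.card * (k + 1).choose 2 = Aw w := by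
  unfold Aw
  rw [← Finset.sum_subtype (Finset.univ.filter fun a => w a ≠ 0 ∧ a ∉ S) (by simp)
    (fun a => (w a + 1).choose 2)]
  rw [← Finset.sum_sdiff (Finset.subset_univ S)]
  have e1 : ∑ a ∈ S, (w a + 1).choose 2 = S.card * (k + 1).choose 2 := by
    rw [Finset.sum_congr rfl fun a ha => by rw [hS a ha], Finset.sum_const, smul_eq_mul]
  rw [e1]
  congr 1
  symm
  have e2 : (Finset.univ \ S) = Finset.univ.filter fun a => a ∉ S := by
    ext a
    simp
  rw [e2, Finset.sum_filter, Finset.sum_filter]
  refine Finset.sum_congr rfl fun a _ => ?_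
  by_cases h1 : a ∈ S
  · simp [h1]
  · by_cases h2 : w a = 0
    · simp [h1, h2]
    · simp [h1, h2]

/-- adding points does not decrease the number of points of multiplicity `k` -/
theorem card_sum {n : ℕ} (w : Fin n → ℕ) (x k : ℕ) (hk : 0 < k) :
    Nat.card {a // w a = k} ≤ Nat.card {b : {a : Fin n // w a ≠ 0} ⊕ Fin x //
      Sum.elim (fun a : {a : Fin n // w a ≠ 0} => w a) (fun _ : Fin x => k) b = k} := by
  refine Nat.card_le_card_of_injective
    (fun a => ⟨Sum.inl ⟨a.1, by rw [a.2]; exact hk.ne'⟩, a.2⟩) ?_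
  intro a b hab
  have h1 := congrArg Subtype.val hab
  simp only [Sum.inl.injEq, Subtype.mk.injEq] at h1
  exact Subtype.ext h1

/-- removing points -/
theorem card_rem {n : ℕ} (w : Fin n → ℕ) (S : Finset (Fin n)) (k : ℕ) (hk : 0 < k)
    (hS : ∀ a ∈ S, w a = k) :
    Nat.card {a // w a = k} ≤
      Nat.card {b : {a : Fin n // w a ≠ 0 ∧ a ∉ S} // w b = k} + S.card := by
  have e1 : Nat.card {a // w a = k} = (Finset.univ.filter fun a => w a = k).card := by
    rw [Nat.card_eq_fintype_card, Fintype.card_subtype]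
  have e2 : ((Finset.univ.filter fun a => w a = k) \ S).card ≤
      Nat.card {b : {a : Fin n // w a ≠ 0 ∧ a ∉ S} // w b = k} := by
    rw [← Fintype.card_coe, ← Nat.card_eq_fintype_card]
    refine Nat.card_le_card_of_injective
      (fun a => ⟨⟨a.1, ?_⟩, ?_⟩) ?_
    · have := Finset.mem_sdiff.1 a.2
      refine ⟨?_, this.2⟩
      rw [(Finset.mem_filter.1 this.1).2]
      exact hk.ne'
    · have := Finset.mem_sdiff.1 a.2
      exact (Finset.mem_filter.1 this.1).2
    · intro a b hab
      have h1 := congrArg (fun t => (t.1.1 : Fin n)) hab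
      exact Subtype.ext h1
  have e3 : S ⊆ Finset.univ.filter fun a => w a = k := by
    intro a ha
    rw [Finset.mem_filter]
    exact ⟨Finset.mem_univ _, hS a ha⟩
  have e4 := Finset.card_sdiff_add_card_eq_card e3
  omega

end R4h

open R4h in
theorem T_R4 (hR : P_RANKS) (hR3 : P_R3) (hTR : P_TR) : P_R4 := by
  intro K _ _ k₀ m hk₀ hkm n w hw n₀ d hn₀ hBig hbig
  have hm : 0 < m := lt_of_lt_of_le hk₀ hkm
  have hc := two_choose k₀
  have hq : 0 < k₀ * (k₀ + 1) := by positivity
  set q := k₀ * (k₀ + 1) with hqdef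
  set c := (k₀ + 1).choose 2 with hcdef
  set N := (d + 2).choose 2 with hNdef
  have hTN : (Tfin d).card = N := by
    have h1 := card_Tfin d
    have h2 := two_choose (d + 1)
    rw [show d + 1 + 1 = d + 2 from rfl] at h2
    rw [hNdef]
    omega
  constructor
  · intro hAN
    set x := 2 * (N - Aw w) / q with hx
    have hx1 : x * q ≤ 2 * (N - Aw w) := Nat.div_mul_le_self _ _
    have hx2 : 2 * (N - Aw w) < (x + 1) * q := by
      rw [hx]
      exact (Nat.div_lt_iff_lt_mul hq).1 (Nat.lt_succ_self _)
    have hA := Aw_sum w x k₀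
    rw [← hcdef] at hA
    have hcard := card_sum w x k₀ hk₀
    rw [← hn₀] at hcard
    have h2 : 2 * (x * c) = x * q := by rw [← hc]; ring
    have hx3 : (x + 1) * q = x * q + q := by ring
    have h := hR3 K k₀ m hk₀ hkm ({a : Fin n // w a ≠ 0} ⊕ Fin x)
      (Sum.elim (fun a : {a : Fin n // w a ≠ 0} => w a) (fun _ : Fin x => k₀))
      (by
        rintro (a | a)
        · rcases hw a with h | h
          · exact absurd h a.2
          · exact h
        · exact ⟨le_refl _, hkm⟩) _ d rfl hBig
      (by rw [hA]; omega) (by rw [hA]; omega)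
      (by
        refine le_trans ?_ (Nat.mul_le_mul_right q hcard)
        show m * (m + 1) * (m + 2) + q ≤ n₀ * q
        omega)
    rw [min_eq_right (by rw [hA]; omega), ← coe_Tfin] at h
    have h3 := (hTR K (Fin n) ({a : Fin n // w a ≠ 0} ⊕ Fin x) w
      (Sum.elim (fun a : {a : Fin n // w a ≠ 0} => w a) (fun _ : Fin x => k₀))
      ⟨Sum.inl, Sum.inl_injective⟩ (fun a => le_refl _) (Tfin d)).1 h
    rw [coe_Tfin] at h3
    exact h3
  · intro hNA
    have hW := three_choose m
    set W := 2 * (m + 1).choose 3 with hWdef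
    by_cases hNW : N + W ≤ Aw w
    · exact (hR K n w m d hm (fun a => by
        rcases hw a with h | h
        · rw [h]; exact Nat.zero_le _
        · exact h.2) hBig).2 hNW
    · have hNW' : Aw w < N + W := not_le.1 hNW
      set x := 2 * (Aw w - N) / q with hx
      have hx1 : x * q ≤ 2 * (Aw w - N) := Nat.div_mul_le_self _ _
      have hx2 : 2 * (Aw w - N) < (x + 1) * q := by
        rw [hx]
        exact (Nat.div_lt_iff_lt_mul hq).1 (Nat.lt_succ_self _)
      have hx3 : (x + 1) * q = x * q + q := by ring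
      have hWm : 2 * W ≤ m * (m + 1) * (m + 2) := by nlinarith
      have hxn : x ≤ n₀ := by
        by_contra hcon
        have h1 := Nat.mul_le_mul_right q (not_le.1 hcon).le
        omega
      have e1 : n₀ = (Finset.univ.filter fun a => w a = k₀).card := by
        rw [hn₀, Nat.card_eq_fintype_card, Fintype.card_subtype]
      obtain ⟨S, hS1, hS2⟩ := Finset.exists_subset_card_eq (hxn.trans e1.le)
      have hS : ∀ a ∈ S, w a = k₀ := fun a ha => (Finset.mem_filter.1 (hS1 ha)).2
      have hA := Aw_rem w S k₀ hS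
      rw [← hcdef, hS2] at hA
      have hcard := card_rem w S k₀ hk₀ hS
      rw [← hn₀, hS2] at hcard
      have h2 : 2 * (x * c) = x * q := by rw [← hc]; ring
      have h := hR3 K k₀ m hk₀ hkm {a : Fin n // w a ≠ 0 ∧ a ∉ S}
        (fun a : {a : Fin n // w a ≠ 0 ∧ a ∉ S} => w a)
        (by
          intro a
          rcases hw a with h | h
          · exact absurd h a.2.1
          · exact h) _ d rfl hBig
        (by omega) (by omega)
        (by
          have hcard' : n₀ - x ≤
            Nat.card {b : {a : Fin n // w a ≠ 0 ∧ a ∉ S} // w b = k₀} := by omega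
          refine le_trans ?_ (Nat.mul_le_mul_right q hcard')
          show m * (m + 1) * (m + 2) + q ≤ (n₀ - x) * q
          rw [Nat.sub_mul]
          omega)
      rw [min_eq_left (by omega), ← coe_Tfin] at h
      have h3 := (hTR K {a : Fin n // w a ≠ 0 ∧ a ∉ S} (Fin n)
        (fun a : {a : Fin n // w a ≠ 0 ∧ a ∉ S} => w a) w
        ⟨fun a => (a.1.1 : Fin n), fun a b hab => Subtype.ext (Subtype.ext hab)⟩
        (fun a => le_refl _) (Tfin d)).2 _ h
      rw [coe_Tfin] at h3
      rw [hTN]
      exact h3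

end Pool.Agent.H932R7
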