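import Mathlib
import Pool.Agent.H932R7.X2
import Pool.Agent.H932R7.Fin2

set_option autoImplicit false

/-!
# Ranks in every degree, with a condition on consecutive multiplicities

The proof of `T_R32` is adapted from that of `T_R3` (helper293).
-/

namespace Pool.Agent.H932R7

open Polynomial Pool.Agent.H932R2 Pool.Agent.H932R3

/-- Ranks in degree `d`, near the critical degree. -/
def P_R32 : Prop := ∀ (K : Type) [Field K] [CharZero K] (k₀ m : ℕ), 0 < k₀ → k₀ ≤ m →
  ∀ (ι : Type) [Fintype ι] (w : ι → ℕ), (∀ a, k₀ ≤ w a ∧ w a ≤ m) →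
    ∀ d : ℕ, Big m ((d + 1) * (d + 2)) →
      2 * (d + 2).choose 2 < 2 * Aw w + k₀ * (k₀ + 1) →
      2 * Aw w < 2 * (d + 2).choose 2 + k₀ * (k₀ + 1) →
      Cnd w k₀ 2 →
        RkS (PF K w) (Tset d) (min ((d + 2).choose 2) (Aw w))

theorem T_R32 (hST : P_STAB) (hS : P_START) (hX : P_X2) : P_R32 := by
  intro K _ _ k₀ m hk₀ hkm ι _ w hw d hBig h1 h2 h3
  have hm : 0 < m := lt_of_lt_of_le hk₀ hkm
  have hch := R3h.two_choose' d
  have hP : 0 < m * (m + 1) := by positivity
  unfold Big at hBig
  have hm1 : (1 : ℝ) ≤ m := by exact_mod_cast hm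
  have hx0 : 0 ≤ Real.sqrt (m : ℝ) := Real.sqrt_nonneg _
  have hPr : (2 : ℝ) ≤ (m : ℝ) * (m + 1) := by nlinarith
  have hDr : (m : ℝ) * (m + 1) * 11 ≤ (((d + 1) * (d + 2) : ℕ) : ℝ) := by
    refine le_trans ?_ hBig
    have : (11 : ℝ) ≤ m + 6 * Real.sqrt m + 10 := by linarith
    nlinarith
  have hPD' : m * (m + 1) * 11 ≤ (d + 1) * (d + 2) := by exact_mod_cast hDr
  have hPD : m * (m + 1) ≤ (d + 1) * (d + 2) := by omega
  obtain ⟨r, hr1, hr2, hr3⟩ := R3h.choice (m * (m + 1)) ((d + 1) * (d + 2)) (Fintype.card ι) hP hPD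
  have hr2r : (((d + 1) * (d + 2) : ℕ) : ℝ) < ((r : ℝ) + 2) * ((m : ℝ) * (m + 1)) := by
    have : (((d + 1) * (d + 2) : ℕ) : ℝ) < (((r + 2) * (m * (m + 1)) : ℕ) : ℝ) := by
      exact_mod_cast hr2
    calc (((d + 1) * (d + 2) : ℕ) : ℝ) < (((r + 2) * (m * (m + 1)) : ℕ) : ℝ) := this
      _ = _ := by push_cast; ring
  have hbig2 : (m : ℝ) + 6 * Real.sqrt m + 8 < r := by
    have h4 : ((m : ℝ) * (m + 1)) * (m + 6 * Real.sqrt m + 10) < ((m : ℝ) * (m + 1)) * ((r : ℝ) + 2) := by
      calc ((m : ℝ) * (m + 1)) * (m + 6 * Real.sqrt m + 10) ≤ _ := hBig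
        _ < _ := hr2r
        _ = _ := by ring
    have h5 := lt_of_mul_lt_mul_left h4 (by positivity)
    linarith
  obtain ⟨h16, hmr, hreal⟩ := R3h.real_ineq m r hm hbig2
  obtain ⟨u, t, j, ht, hj, hsz⟩ := exists_param r ((d + 2).choose 2) (by omega)
  have hD20 : 20 ≤ (d + 1) * (d + 2) := by
    have : 2 ≤ m * (m + 1) := by nlinarith
    omega
  have hDr2 : (d + 1) * (d + 2) ≤ r * (m + 1) * (m + 2) := by
    have : (r + 2) * (m * (m + 1)) ≤ r * (m + 1) * (m + 2) := by
      have h6 : (r + 2) * m ≤ r * (m + 2) := by nlinarith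
      calc (r + 2) * (m * (m + 1)) = ((r + 2) * m) * (m + 1) := by ring
        _ ≤ (r * (m + 2)) * (m + 1) := Nat.mul_le_mul_right _ h6
        _ = _ := by ring
    omega
  have hgood : Good r u t j := by
    refine good_of_sz ht hj ?_
    rw [hsz, hch]
    refine lt_of_lt_of_le hr2 ?_
    have h7 : m * (m + 1) ≤ r * (r + 1) := Nat.mul_le_mul hmr (by omega)
    calc (r + 2) * (m * (m + 1)) ≤ (r + 2) * (r * (r + 1)) := Nat.mul_le_mul_left _ h7
      _ ≤ r * (r + 3) * (r + 4) := by nlinarith
  refine hS K (PF K w) (hST K ι w) r m d _ u t j (by omega) hreal hD20 hDr2 ht hj (by rw [hsz, hch]) ?_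
  refine hX K k₀ m hk₀ hkm ι w hw ((d + 2).choose 2) r u t j (by omega) hgood hsz ?_ hr3
    h1 h2 h3
  rw [hch]
  exact hr1


/-- The choice of a subset by an exchange argument. -/
theorem choose_subset {n : ℕ} (w c : Fin n → ℕ) (N : ℕ)
    (hN : N ≤ ∑ a, c a) :
    ∃ U : Finset (Fin n), N ≤ ∑ a ∈ U, c a ∧ (∀ a ∈ U, ∑ b ∈ U, c b < N + c a) ∧
      ∀ a ∈ U, ∑ b ∈ Finset.univ.filter (fun b => w b < w a), c b <
        ∑ b ∈ U.filter (fun b => w b < w a), c b + c a := by
  classical
  obtain ⟨M, hM⟩ : ∃ M, M = n + 2 := ⟨_, rfl⟩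
  obtain ⟨U, hU, hmin⟩ := Finset.exists_min_image
    (Finset.univ.powerset.filter fun U : Finset (Fin n) => N ≤ ∑ a ∈ U, c a)
    (fun U => ∑ a ∈ U, M ^ w a)
    ⟨Finset.univ, by simpa using hN⟩
  have hU1 : N ≤ ∑ a ∈ U, c a := (Finset.mem_filter.1 hU).2
  have hmin' : ∀ V : Finset (Fin n), ∑ a ∈ V, M ^ w a < ∑ a ∈ U, M ^ w a →
      ∑ a ∈ V, c a < N := by
    intro V hV
    by_contra h
    exact absurd (hmin V (Finset.mem_filter.2 ⟨Finset.mem_powerset.2 (Finset.subset_univ _),
      not_lt.1 h⟩)) (not_le.2 hV)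
  refine ⟨U, hU1, fun a ha => ?_, fun a ha => ?_⟩
  · have h1 := hmin' (U.erase a) (by
      rw [← Finset.sum_erase_add U _ ha]
      have : 0 < M ^ w a := by
        rw [hM]
        positivity
      omega)
    rw [← Finset.sum_erase_add U c ha]
    omega
  · by_contra hcon
    push Not at hcon
    -- exchange `a` for all dropped points of smaller multiplicity
    obtain ⟨D, hD⟩ : ∃ D, D = (Finset.univ.filter fun b => w b < w a) \ U := ⟨_, rfl⟩
    have hDU : Disjoint (U.erase a) D := by
      rw [hD]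
      exact Finset.disjoint_of_subset_left (Finset.erase_subset _ _) Finset.disjoint_sdiff
    have hsum : ∑ b ∈ D, c b + ∑ b ∈ U.filter (fun b => w b < w a), c b =
        ∑ b ∈ Finset.univ.filter (fun b => w b < w a), c b := by
      have h1 : (Finset.univ.filter fun b => w b < w a) = D ∪ U.filter (fun b => w b < w a) := by
        rw [hD]
        ext b
        simp only [Finset.mem_filter, Finset.mem_univ, true_and, Finset.mem_union,
          Finset.mem_sdiff]
        tauto
      have h2 : Disjoint D (U.filter (fun b => w b < w a)) := by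
        rw [hD]
        exact Finset.disjoint_of_subset_right (Finset.filter_subset _ _) Finset.sdiff_disjoint
      rw [h1, Finset.sum_union h2]
    have hbig : ∑ b ∈ D, M ^ w b < M ^ w a := by
      by_cases hne : D = ∅
      · rw [hne, Finset.sum_empty, hM]
        positivity
      · obtain ⟨b₀, hb₀⟩ := Finset.nonempty_iff_ne_empty.2 hne
        have hwa : w b₀ < w a := by
          rw [hD] at hb₀
          exact (Finset.mem_filter.1 (Finset.mem_sdiff.1 hb₀).1).2
        obtain ⟨e, he⟩ : ∃ e, w a = e + 1 := ⟨w a - 1, by omega⟩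
        have h1 : ∑ b ∈ D, M ^ w b ≤ D.card * M ^ e := by
          refine (Finset.sum_le_card_nsmul _ _ (M ^ e) fun b hb => ?_).trans (by rw [smul_eq_mul])
          have hwb : w b < w a := by
            rw [hD] at hb
            exact (Finset.mem_filter.1 (Finset.mem_sdiff.1 hb).1).2
          exact Nat.pow_le_pow_right (by omega) (by omega)
        have h2 : D.card ≤ n := by
          simpa using Finset.card_le_univ D
        have h3 : D.card * M ^ e < M * M ^ e := by
          refine Nat.mul_lt_mul_of_pos_right (by omega) ?_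
          rw [hM]
          positivity
        calc ∑ b ∈ D, M ^ w b ≤ D.card * M ^ e := h1
          _ < M * M ^ e := h3
          _ = M ^ w a := by rw [he, pow_succ, mul_comm]
    have h1 := hmin' (U.erase a ∪ D) (by
      rw [Finset.sum_union hDU, ← Finset.sum_erase_add U _ ha]
      omega)
    rw [Finset.sum_union hDU] at h1
    have h2 := Finset.sum_erase_add U c ha
    omega

/-- Ranks in every degree. -/
def P_R42 : Prop := ∀ (K : Type) [Field K] [CharZero K] (k₀ m : ℕ), 0 < k₀ → k₀ ≤ m →
  ∀ (n : ℕ) (w : Fin n → ℕ), (∀ a, w a = 0 ∨ (k₀ ≤ w a ∧ w a ≤ m)) → Cnd w k₀ 3 →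
    ∀ d : ℕ, Big m ((d + 1) * (d + 2)) →
      RkS (PF K w) (Tset d) (min ((d + 2).choose 2) (Aw w))

open R4h in
theorem T_R42 (hR3 : P_R32) (hTR : P_TR) : P_R42 := by
  classical
  intro K _ _ k₀ m hk₀ hkm n w hw hcnd d hBig
  have hc := R4h.two_choose k₀
  have hq : 0 < k₀ * (k₀ + 1) := by positivity
  set q := k₀ * (k₀ + 1) with hqdef
  set N := (d + 2).choose 2 with hNdef
  rcases le_total (Aw w) N with hAN | hNA
  · rw [min_eq_right hAN]
    set c := (k₀ + 1).choose 2 with hcdef
    set x := 2 * (N - Aw w) / q with hx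
    have hx1 : x * q ≤ 2 * (N - Aw w) := Nat.div_mul_le_self _ _
    have hx2 : 2 * (N - Aw w) < (x + 1) * q := by
      rw [hx]
      exact (Nat.div_lt_iff_lt_mul hq).1 (Nat.lt_succ_self _)
    have hA := Aw_sum w x k₀
    rw [← hcdef] at hA
    have h2 : 2 * (x * c) = x * q := by rw [← hc]; ring
    have hx3 : (x + 1) * q = x * q + q := by ring
    have h := hR3 K k₀ m hk₀ hkm ({a : Fin n // w a ≠ 0} ⊕ Fin x)
      (Sum.elim (fun a : {a : Fin n // w a ≠ 0} => w a) (fun _ : Fin x => k₀))
      (by
        rintro (a | a)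
        · rcases hw a with h | h
          · exact absurd h a.2
          · exact h
        · exact ⟨le_refl _, hkm⟩) d hBig
      (by rw [hA]; omega) (by rw [hA]; omega)
      (by
        rintro (a | a) ha
        · change k₀ < w a.1 at ha
          have h1 := hcnd a.1 ha
          show w a.1 * (w a.1 + 1) * (w a.1 + 2) + k₀ * (k₀ + 1) ≤ _
          have h3 : w a.1 * (w a.1 + 1) * (w a.1 + 2) ≤ w a.1 * (w a.1 + 1) * (w a.1 + 3) :=
            Nat.mul_le_mul_left _ (by omega)
          have h4 : ∑ b ∈ Finset.univ.filter (fun b => w b < w a.1), (w b + 1).choose 2 ≤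
              ∑ b ∈ Finset.univ.filter (fun b =>
                Sum.elim (fun a : {a : Fin n // w a ≠ 0} => w a) (fun _ : Fin x => k₀) b <
                Sum.elim (fun a : {a : Fin n // w a ≠ 0} => w a) (fun _ : Fin x => k₀)
                  (Sum.inl a)),
                (Sum.elim (fun a : {a : Fin n // w a ≠ 0} => w a) (fun _ : Fin x => k₀) b
                  + 1).choose 2 := by
            rw [Finset.sum_filter, Finset.sum_filter, Fintype.sum_sum_type]
            refine le_trans ?_ (Nat.le_add_right _ _)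
            simp only [Sum.elim_inl]
            rw [← Finset.sum_subtype (Finset.univ.filter fun a => w a ≠ 0) (by simp)
              (fun b => if w b < w a.1 then (w b + 1).choose 2 else 0)]
            rw [Finset.sum_filter]
            refine Finset.sum_le_sum fun b _ => ?_
            by_cases hb : w b = 0
            · rw [hb]
              split_ifs <;> simp_all
            · rw [if_pos hb]
          omega
        · exact absurd ha (lt_irrefl _))
    rw [min_eq_right (by rw [hA]; omega), ← coe_Tfin] at h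
    have h3 := (hTR K (Fin n) ({a : Fin n // w a ≠ 0} ⊕ Fin x) w
      (Sum.elim (fun a : {a : Fin n // w a ≠ 0} => w a) (fun _ : Fin x => k₀))
      ⟨Sum.inl, Sum.inl_injective⟩ (fun a => le_refl _) (Tfin d)).1 h
    rw [coe_Tfin] at h3
    exact h3
  · rw [min_eq_left hNA]
    obtain ⟨U, hU1, hU2, hU3⟩ := choose_subset w (fun a => (w a + 1).choose 2) N hNA
    have hU0 : ∀ a ∈ U, k₀ ≤ w a ∧ w a ≤ m := by
      intro a ha
      rcases hw a with h | h
      · have h1 := hU2 a ha
        simp only [h] at h1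
        have : (0 + 1).choose 2 = 0 := rfl
        omega
      · exact h
    have hAU : Aw (fun a : {a // a ∈ U} => w a) = ∑ a ∈ U, (w a + 1).choose 2 := by
      unfold Aw
      exact (Finset.sum_subtype U (fun _ => Iff.rfl) (fun a => (w a + 1).choose 2)).symm
    have hfil : ∀ κ : ℕ, ∑ b ∈ (Finset.univ : Finset {a // a ∈ U}).filter (fun b => w b.1 < κ),
        (w b.1 + 1).choose 2 = ∑ b ∈ U.filter (fun b => w b < κ), (w b + 1).choose 2 := by
      intro κ
      rw [Finset.sum_filter, Finset.sum_filter]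
      exact (Finset.sum_subtype U (fun _ => Iff.rfl)
        (fun a => if w a < κ then (w a + 1).choose 2 else 0)).symm
    have hkey : ∀ a ∈ U, k₀ < w a → w a * (w a + 1) * (w a + 2) + q ≤
        2 * ∑ b ∈ U.filter (fun b => w b < w a), (w b + 1).choose 2 := by
      intro a ha hka
      have h1 := hcnd a hka
      have h2 := hU3 a ha
      have h3 := R4h.two_choose (w a)
      have h4 : w a * (w a + 1) * (w a + 3) = w a * (w a + 1) * (w a + 2) + w a * (w a + 1) := by
        ring
      omega
    have hwin : 2 * ∑ a ∈ U, (w a + 1).choose 2 < 2 * N + q := by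
      rcases Finset.eq_empty_or_nonempty U with h | h
      · rw [h, Finset.sum_empty]
        omega
      · obtain ⟨a, ha, hamin⟩ := Finset.exists_min_image U w h
        rcases Nat.lt_or_ge k₀ (w a) with h1 | h1
        · have h2 := hkey a ha h1
          have h3 : U.filter (fun b => w b < w a) = ∅ := by
            rw [Finset.filter_eq_empty_iff]
            intro b hb
            exact not_lt.2 (hamin b hb)
          rw [h3, Finset.sum_empty] at h2
          omega
        · have h2 := hU2 a ha
          have h3 : w a = k₀ := le_antisymm h1 (hU0 a ha).1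
          rw [h3] at h2
          omega
    have h := hR3 K k₀ m hk₀ hkm {a // a ∈ U} (fun a => w a) (fun a => hU0 a.1 a.2) d hBig
      (by rw [hAU]; omega) (by rw [hAU]; exact hwin) (by
        intro a ha
        have h1 := hkey a.1 a.2 ha
        rw [← hfil] at h1
        exact h1)
    rw [min_eq_left (by rw [hAU]; omega), ← coe_Tfin] at h
    have h3 := (hTR K {a // a ∈ U} (Fin n) (fun a => w a) w
      ⟨fun a => (a.1.1 : Fin n), fun a b hab => Subtype.ext (Subtype.ext hab)⟩
      (fun a => le_refl _) (Tfin d)).2 _ h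
    rw [coe_Tfin] at h3
    exact h3

end Pool.Agent.H932R7
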