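import Mathlib
import Pool.Agent.H932R7.R2
import Pool.Agent.H932R7.TMAST

set_option autoImplicit false

/-!
# The induction down to a threshold

The induction step is adapted from `T_X` (helper56).
-/

namespace Pool.Agent.H932R7

open Polynomial Pool.Agent.H932R2 Pool.Agent.H932R3

/-- For every point of multiplicity more than `k₁` there are enough points of smaller
multiplicity. -/
def Cnq {ι : Type} [Fintype ι] (w : ι → ℕ) (k₁ c q : ℕ) : Prop :=
  ∀ a, k₁ < w a → w a * (w a + 1) * (w a + c) + q ≤
    2 * ∑ b ∈ Finset.univ.filter (fun b => w b < w a), (w b + 1).choose 2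

/-- The conditions of the points of multiplicity at most `k₁`. -/
def Alow {ι : Type} [Fintype ι] (w : ι → ℕ) (k₁ : ℕ) : ℕ :=
  ∑ a, if w a < k₁ + 1 then (w a + 1).choose 2 else 0

/-- The number of points of multiplicity more than `k₁`. -/
def Nhigh {ι : Type} [Fintype ι] (w : ι → ℕ) (k₁ : ℕ) : ℕ :=
  ∑ a, if w a < k₁ + 1 then 0 else 1

theorem sum_f {ι : Type} [Fintype ι] (w : ι → ℕ) (k : ℕ) (hw : ∀ a, w a ≤ k)
    [Fintype {a // w a < k}] (f : ℕ → ℕ) :
    ∑ a, f (w a) = ∑ a : {a // w a < k}, f (w a.1) + Nat.card {a // w a = k} * f k := by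
  classical
  have h1 : ∑ a : {a // w a < k}, f (w a.1) = ∑ a ∈ Finset.univ.filter (fun a => w a < k), f (w a) :=
    (Finset.sum_subtype (Finset.univ.filter fun a => w a < k) (by simp) (fun a => f (w a))).symm
  have h2 : Nat.card {a // w a = k} * f k =
      ∑ a ∈ Finset.univ.filter (fun a => ¬ w a < k), f (w a) := by
    rw [Nat.card_eq_fintype_card, Fintype.card_subtype]
    have h3 : (Finset.univ.filter fun a => ¬ w a < k) = Finset.univ.filter fun a => w a = k := by
      ext a
      simp only [Finset.mem_filter, Finset.mem_univ, true_and]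
      have := hw a
      omega
    rw [h3, Finset.sum_congr rfl (g := fun _ => f k) (fun a ha => by
      rw [(Finset.mem_filter.1 ha).2]), Finset.sum_const, smul_eq_mul]
  rw [h1, h2, Finset.sum_filter_add_sum_filter_not]

/-- The induction. -/
def P_X3 : Prop := ∀ (K : Type) [Field K] [CharZero K] (k₁ k : ℕ), 0 < k₁ → k₁ ≤ k →
  ∀ (ι : Type) [Fintype ι] (w : ι → ℕ), (∀ a, w a ≤ k) →
    ∀ q N s u t j δ : ℕ, 0 < s → Good s u t j →
      sz s u t j = 2 * N → s * (k * (k + 1)) ≤ 2 * N →
      2 * Aw w < 2 * N + q → Cnq w k₁ 2 q →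
      Wst k₁ + (k₁ + 1).choose 2 ≤ δ + 1 →
        (N = Aw w + δ → s % 2 = (Nhigh w k₁ + (Alow w k₁ + δ) / (k₁ + 1).choose 2) % 2 →
          RkS (PF K w) (↑(Lfin s u t j) : Set (ℕ × ℕ)) (Aw w)) ∧
        (Aw w = N + δ → s % 2 = (Nhigh w k₁ +
            (Alow w k₁ - δ + (k₁ + 1).choose 2 - 1) / (k₁ + 1).choose 2) % 2 →
          RkS (PF K w) (↑(Lfin s u t j) : Set (ℕ × ℕ)) N)

open CHXh

theorem T_X3 (hST : P_STAB) (hCH : P_CH) (hBK : P_BLK) (hSP : P_SPLIT) (hI : P_IND)
    (hF : P_FULL) : P_X3 := by
  intro K _ _ k₁ k hk₁ hk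
  induction k, hk using Nat.le_induction with
  | base =>
    intro ι _ w hw q N s u t j δ hs hg hsz hsk hN2 hsize hδ
    have hc2 := c2 k₁
    have hC0 : 0 < (k₁ + 1).choose 2 := Nat.choose_pos (by omega)
    have hAl : Alow w k₁ = Aw w := by
      unfold Alow Aw
      exact Finset.sum_congr rfl fun a _ => if_pos (by have := hw a; omega)
    have hNh : Nhigh w k₁ = 0 := by
      unfold Nhigh
      exact Finset.sum_eq_zero fun a _ => if_pos (by have := hw a; omega)
    rw [hAl, hNh, Nat.zero_add, Nat.zero_add]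
    set C := (k₁ + 1).choose 2 with hC
    rw [← hc2] at hsk
    have hsC : s * C ≤ N := by
      have : s * (2 * C) = 2 * (s * C) := by ring
      omega
    constructor
    · intro hN hpar
      rw [← hN] at hpar
      obtain ⟨g, hgd⟩ : ∃ g, g = N / C := ⟨_, rfl⟩
      rw [← hgd] at hpar
      have hg1 : g * C ≤ N := by rw [hgd]; exact Nat.div_mul_le_self _ _
      have hg2 : N < g * C + C := by
        have := Nat.lt_div_mul_add (a := N) hC0
        rw [hgd]
        exact this
      have hsg : s ≤ g := by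
        rw [hgd]
        exact (Nat.le_div_iff_mul_le hC0).2 hsC
      obtain ⟨κ, hκ⟩ : ∃ κ, g = s + 2 * κ := ⟨(g - s) / 2, by omega⟩
      obtain ⟨u', t', j', ht', hj', hsz'⟩ := exists_param g N (by omega)
      have hind := hI K k₁ ι w g hw (by rw [← hC]; omega)
      have hEE : EE g k₁ = Lfin g k₁ 0 0 := MASTh.EE_eq_Lfin g k₁
      rw [hEE] at hind
      have hsub := Lfin_subset (s := g) (u := k₁) (t := 0) (j := 0) (u' := u') (t' := t')
          (j' := j') (by omega) (by omega) ht' hj' (by
            rw [hsz']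
            have : sz g k₁ 0 0 = 2 * (g * C) := by
              unfold sz
              calc g * k₁ * (k₁ + 1) + _ = g * (k₁ * (k₁ + 1)) := by ring
                _ = 2 * (g * C) := by rw [← hc2]; ring
            omega)
      have hmain : RkS (PF K w) (↑(Lfin g u' t' j') : Set (ℕ × ℕ)) (Aw w) :=
        RkS.mono (by exact_mod_cast hsub) hind
      rw [hκ] at hmain ht' hsz'
      exact hCH K (PF K w) (hST K ι w) s κ u t j u' t' j' _ hs hg ht' hj' (by rw [hsz', hsz])
        hmain
    · intro hN hpar
      have hN' : Aw w - δ = N := by omega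
      rw [hN'] at hpar
      obtain ⟨g, hgd⟩ : ∃ g, g = (N + C - 1) / C := ⟨_, rfl⟩
      rw [← hgd] at hpar
      have hg1 : g * C ≤ N + C - 1 := by rw [hgd]; exact Nat.div_mul_le_self _ _
      have hg2 : N ≤ g * C := by
        have h1 := Nat.lt_div_mul_add (a := N + C - 1) hC0
        rw [← hgd] at h1
        omega
      have hsg : s ≤ g := by
        rw [hgd]
        refine (Nat.le_div_iff_mul_le hC0).2 ?_
        omega
      obtain ⟨κ, hκ⟩ : ∃ κ, g = s + 2 * κ := ⟨(g - s) / 2, by omega⟩
      obtain ⟨u', t', j', ht', hj', hsz'⟩ := exists_param g N (by omega)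
      have hful := hF K k₁ ι w g hw (by rw [← hC]; omega)
      have hEE : EE g k₁ = Lfin g k₁ 0 0 := MASTh.EE_eq_Lfin g k₁
      rw [hEE] at hful
      have hcardL' : (Lfin g u' t' j').card = N := by
        have := card_Lfin (s := g) (u := u') (t := t') (j := j') hj'
        omega
      have hsub := Lfin_subset (s := g) (u := u') (t := t') (j := j') (u' := k₁) (t' := 0)
          (j' := 0) ht' hj' (by omega) (by omega) (by
            rw [hsz']
            have : sz g k₁ 0 0 = 2 * (g * C) := by
              unfold sz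
              calc g * k₁ * (k₁ + 1) + _ = g * (k₁ * (k₁ + 1)) := by ring
                _ = 2 * (g * C) := by rw [← hc2]; ring
            omega)
      have hmain := RkS.subset hful hsub
      rw [hcardL'] at hmain
      rw [hκ] at hmain ht' hsz'
      exact hCH K (PF K w) (hST K ι w) s κ u t j u' t' j' _ hs hg ht' hj' (by rw [hsz', hsz])
        hmain
  | succ k hk ih =>
    intro ι _ w hw q N s u t j δ hs hg hsz hsk hN2 hsize hδ
    classical
    by_cases hex : ∃ a, w a = k + 1
    swap
    · have hw' : ∀ a, w a ≤ k := fun a => by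
        have h1 := hw a
        have h2 : w a ≠ k + 1 := fun h => hex ⟨a, h⟩
        omega
      refine ih ι w hw' q N s u t j δ hs hg hsz ?_ hN2 hsize hδ
      refine le_trans (Nat.mul_le_mul_left _ ?_) hsk
      exact Nat.mul_le_mul (by omega) (by omega)
    obtain ⟨a₁, ha₁⟩ := hex
    have hc2 := c2 (k + 1)
    have hsp := hSP ι w (k + 1) hw
    have hih := ih {a // w a < k + 1} (fun a => w a)
      (fun a => Nat.lt_succ_iff.mp a.2) q
    have hcnd : Cnq (fun a : {a // w a < k + 1} => w a) k₁ 2 q := by
      intro a ha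
      have h1 := hsize a.1 ha
      rwa [← sum_restrict w (k + 1) (w a.1) a.2.le] at h1
    have hAe : Aw (fun a : {a // w a < k + 1} => w a) =
        ∑ b ∈ Finset.univ.filter (fun b => w b < k + 1), (w b + 1).choose 2 := by
      rw [← sum_restrict w (k + 1) (k + 1) le_rfl]
      unfold Aw
      rw [Finset.filter_true_of_mem fun b _ => b.2]
    have hlow : Alow w k₁ = Alow (fun a : {a // w a < k + 1} => w a) k₁ := by
      have h1 := sum_f w (k + 1) hw (fun x => if x < k₁ + 1 then (x + 1).choose 2 else 0)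
      unfold Alow
      rw [h1]
      dsimp only
      rw [if_neg (by omega : ¬ k + 1 < k₁ + 1), Nat.mul_zero, Nat.add_zero]
    have hhigh : Nhigh w k₁ = Nhigh (fun a : {a // w a < k + 1} => w a) k₁ +
        Nat.card {a // w a = k + 1} := by
      have h1 := sum_f w (k + 1) hw (fun x => if x < k₁ + 1 then 0 else 1)
      unfold Nhigh
      rw [h1]
      dsimp only
      rw [if_neg (by omega : ¬ k + 1 < k₁ + 1), Nat.mul_one]
    have hsz1 := hsize a₁ (by omega)
    rw [ha₁, ← hAe] at hsz1
    rw [hlow, hhigh]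
    set al := Alow (fun a : {a // w a < k + 1} => w a) k₁ with hal
    set nh := Nhigh (fun a : {a // w a < k + 1} => w a) k₁ with hnh
    set n := Nat.card {a // w a = k + 1} with hn
    set A := Aw w with hA
    set A' := Aw (fun a : {a // w a < k + 1} => w a) with hA'
    have hC : 0 < (k + 1 + 1).choose 2 := Nat.choose_pos (by omega)
    set C := (k + 1 + 1).choose 2 with hCd
    rw [← hc2] at hsk hsz1
    obtain ⟨κ, hκ1, hκ2⟩ := slope hC hsk
    obtain ⟨S, hS⟩ : ∃ S, S = s + 2 * κ := ⟨_, rfl⟩
    rw [← hS] at hκ1 hκ2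
    have hcl : n + k + 1 < S := claim2 hsp hκ2 hN2 (by
      have : k + 1 + 2 = k + 3 := rfl
      rw [this] at hsz1
      exact hsz1)
    obtain ⟨R, hR⟩ : ∃ R, N = S * C + R := ⟨N - S * C, by omega⟩
    have hRlt : R < (k + 1) * (k + 2) := by
      have : (k + 1) * (k + 2) = 2 * C := hc2.symm
      omega
    obtain ⟨t', ht'd⟩ : ∃ t', t' = R / (k + 2) := ⟨_, rfl⟩
    obtain ⟨j', hj'd⟩ : ∃ j', j' = R % (k + 2) := ⟨_, rfl⟩
    have ht' : t' < k + 1 := by
      rw [ht'd]
      exact Nat.div_lt_of_lt_mul (by rw [mul_comm]; exact hRlt)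
    have hj' : j' < k + 2 := by
      rw [hj'd]
      exact Nat.mod_lt _ (by omega)
    have hRe : (k + 2) * t' + j' = R := by
      rw [ht'd, hj'd]
      exact Nat.div_add_mod _ _
    have hszS : ∀ σ : ℕ, sz σ (k + 1) t' j' = 2 * (σ * C + R) := by
      intro σ
      rw [← hRe]
      unfold sz
      have : σ * (k + 1) * (k + 1 + 1) = 2 * (σ * C) := by
        calc σ * (k + 1) * (k + 1 + 1) = σ * ((k + 1) * (k + 1 + 1)) := by ring
          _ = σ * (2 * C) := by rw [hc2]
          _ = 2 * (σ * C) := by ring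
      rw [this]
      ring
    obtain ⟨S', hS'⟩ : ∃ S', S = n + S' := ⟨S - n, by omega⟩
    obtain ⟨N', hN'⟩ : ∃ N', N' = S' * C + R := ⟨_, rfl⟩
    have hNN : N = N' + n * C := by
      rw [hR, hN', hS']
      ring
    have hrest := hih N' S' (k + 1) t' j' δ (by omega) ⟨by omega, by omega, by omega⟩
      (by rw [hszS, hN']) (by
        have h1 : S' * (k * (k + 1)) ≤ S' * (2 * C) := by
          refine Nat.mul_le_mul_left _ ?_
          rw [hc2]
          exact Nat.mul_le_mul (by omega) (by omega)
        have h2 : S' * (2 * C) = 2 * (S' * C) := by ring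
        omega) (by omega) hcnd hδ
    have hstep : ∀ X : ℕ, RkS (PF K (fun a : {a // w a < k + 1} => w a))
        (↑(Lfin S' (k + 1) t' j') : Set (ℕ × ℕ)) X →
        RkS (PF K w) (↑(Lfin s u t j) : Set (ℕ × ℕ)) (X + n * C) := by
      intro X hX
      have hblk := hBK K ι w (k + 1) n X
        (fun l => S * (k + 1 - l) + t' + if l < j' then 1 else 0) (by omega)
        hw hn (fun l _ => by
          have : n * (k + 1 - l) ≤ S * (k + 1 - l) := Nat.mul_le_mul_right _ (by omega)
          show n * (k + 1 - l) ≤ S * (k + 1 - l) + t' + if l < j' then 1 else 0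
          omega)
        (by
          have he : (fun l => (S * (k + 1 - l) + t' + if l < j' then 1 else 0) -
              n * (k + 1 - l)) = fun l => S' * (k + 1 - l) + t' + if l < j' then 1 else 0 := by
            funext l
            rw [hS', Nat.add_mul]
            omega
          rw [he]
          exact hX)
      have hmain : RkS (PF K w) (↑(Lfin S (k + 1) t' j') : Set (ℕ × ℕ)) (X + n * C) := hblk
      rw [hS] at hmain
      refine hCH K (PF K w) (hST K ι w) s κ u t j (k + 1) t' j' _ hs hg (by omega) (by omega) ?_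
        hmain
      rw [← hS, hszS, hsz, hR]
    constructor
    · intro hN hpar
      have h1 := hstep _ (hrest.1 (by omega) (by omega))
      rwa [← hsp] at h1
    · intro hN hpar
      have h1 := hstep _ (hrest.2 (by omega) (by omega))
      rwa [← hNN] at h1

end Pool.Agent.H932R7
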