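import Mathlib
import Pool.Agent.H932R7.Stubs

set_option autoImplicit false

/-!
# Removal of the points of the largest multiplicity
-/

namespace Pool.Agent.H932R7

open Polynomial Pool.Agent.H932R2 Pool.Agent.H932R3

namespace BLOCKh

variable {K : Type} [Field K]

theorem smul_eq (a : K) (f : K[X][X]) : a • f = C (C a) * f := by
  rw [Algebra.smul_def]; rfl

theorem mem_mspan_coeff (M : Set (ℕ × ℕ)) (f : K[X][X]) :
    f ∈ mspan K M ↔ ∀ i l, (f.coeff l).coeff i ≠ 0 → (i, l) ∈ M := by
  constructor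
  · intro hf
    unfold mspan at hf
    refine Submodule.span_induction
      (p := fun f _ => ∀ i l, (f.coeff l).coeff i ≠ 0 → (i, l) ∈ M) ?_ ?_ ?_ ?_ hf
    · rintro _ ⟨p, hp, rfl⟩ i l h
      rw [coeff_mon] at h
      by_cases hpp : p = (i, l)
      · rwa [← hpp]
      · rw [if_neg hpp] at h; exact absurd rfl h
    · intro i l h
      simp at h
    · intro x y _ _ hx hy i l h
      by_cases h1 : (x.coeff l).coeff i = 0
      · refine hy i l ?_
        intro h2; apply h; rw [coeff_add, coeff_add, h1, h2, add_zero]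
      · exact hx i l h1
    · intro a x _ hx i l h
      refine hx i l ?_
      intro h2; apply h; rw [coeff_smul, coeff_smul, h2, smul_zero]
  · intro h
    rw [← Polynomial.sum_monomial_eq f, Polynomial.sum_def]
    refine Submodule.sum_mem _ fun l _ => ?_
    rw [← C_mul_X_pow_eq_monomial]
    have e : C (f.coeff l) * X ^ l =
        ∑ i ∈ (f.coeff l).support, ((f.coeff l).coeff i) • mon K (i, l) := by
      conv_lhs => rw [← Polynomial.sum_monomial_eq (f.coeff l), Polynomial.sum_def]
      rw [map_sum, Finset.sum_mul]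
      refine Finset.sum_congr rfl fun i _ => ?_
      rw [smul_eq, mon, ← C_mul_X_pow_eq_monomial, C_mul]
      ring
    rw [e]
    refine Submodule.sum_mem _ fun i hi =>
      Submodule.smul_mem _ _ (Submodule.subset_span ⟨(i, l), h i l (mem_support_iff.1 hi), rfl⟩)

/-- coefficient `l` is multiplied by `g ^ (k - l)` -/
noncomputable def Th (k : ℕ) (g : K[X]) : K[X][X] →ₗ[K] K[X][X] where
  toFun F := ∑ l ∈ Finset.range k, C (g ^ (k - l) * F.coeff l) * X ^ l
  map_add' F G := by
    rw [← Finset.sum_add_distrib]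
    refine Finset.sum_congr rfl fun l _ => ?_
    rw [coeff_add, mul_add, C_add, add_mul]
  map_smul' a F := by
    rw [RingHom.id_apply, Finset.smul_sum]
    refine Finset.sum_congr rfl fun l _ => ?_
    rw [coeff_smul, smul_eq, Algebra.smul_def]
    change C (g ^ (k - l) * (C a * F.coeff l)) * X ^ l = _
    simp only [C_mul]
    ring

theorem coeff_sum (k : ℕ) (h : ℕ → K[X]) (m : ℕ) :
    (∑ l ∈ Finset.range k, C (h l) * X ^ l : K[X][X]).coeff m = if m < k then h m else 0 := by
  rw [finsetSum_coeff]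
  simp only [coeff_C_mul_X_pow]
  by_cases hm : m < k
  · rw [if_pos hm, Finset.sum_eq_single m]
    · simp
    · intro b _ hb
      rw [if_neg (Ne.symm hb)]
    · intro h1
      exact absurd (Finset.mem_range.2 hm) h1
  · rw [if_neg hm]
    refine Finset.sum_eq_zero fun b hb => ?_
    rw [Finset.mem_range] at hb
    rw [if_neg]
    omega

theorem coeff_Th (k : ℕ) (g : K[X]) (F : K[X][X]) (m : ℕ) :
    (Th k g F).coeff m = if m < k then g ^ (k - m) * F.coeff m else 0 :=
  coeff_sum k (fun l => g ^ (k - l) * F.coeff l) m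

/-- The algebraic part of the claim. -/
theorem key {k s n : ℕ} {g : K[X]} (hg : g.Monic) (hgn : g.natDegree = n) (hns : n ≤ s)
    {f : K[X][X]} (hf : f ∈ mspan K (↑(Zt k s n) : Set (ℕ × ℕ)))
    (hd : ∀ l < k, g ^ (k - l) ∣ f.coeff l) :
    ∃ F : K[X][X], F ∈ mspan K (↑(EE (s - n) (k - 1)) : Set (ℕ × ℕ)) ∧ Th k g F = f ∧
      f.comp (C g * X) = C (g ^ k) * F := by
  have hex : ∀ l, ∃ h : K[X], l < k → f.coeff l = g ^ (k - l) * h := by
    intro l
    by_cases hl : l < k
    · obtain ⟨h, hh⟩ := hd l hl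
      exact ⟨h, fun _ => hh⟩
    · exact ⟨0, fun h => absurd h hl⟩
  choose h hh using hex
  rw [mem_mspan_coeff] at hf
  have hf0 : ∀ l, ¬ l < k → f.coeff l = 0 := by
    intro l hl
    ext i
    by_contra hne
    rw [coeff_zero] at hne
    have := hf i l hne
    rw [Finset.mem_coe, Zt, mem_rowsF] at this
    exact hl this.1
  refine ⟨∑ l ∈ Finset.range k, C (h l) * X ^ l, ?_, ?_, ?_⟩
  · rw [mem_mspan_coeff]
    intro i l hil
    rw [coeff_sum] at hil
    by_cases hl : l < k
    · rw [if_pos hl] at hil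
      have hne : h l ≠ 0 := by
        rintro h0
        rw [h0] at hil
        simp at hil
      have hi : i ≤ (h l).natDegree := le_natDegree_of_ne_zero hil
      have hfne : f.coeff l ≠ 0 := by
        rw [hh l hl]
        exact mul_ne_zero (pow_ne_zero _ hg.ne_zero) hne
      have h1 : ((f.coeff l).natDegree, l) ∈ (↑(Zt k s n) : Set (ℕ × ℕ)) :=
        hf _ l (by rw [coeff_natDegree]; exact leadingCoeff_ne_zero.2 hfne)
      rw [Finset.mem_coe, Zt, mem_rowsF] at h1
      have h2 : (f.coeff l).natDegree = (k - l) * n + (h l).natDegree := by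
        rw [hh l hl, (hg.pow (k - l)).natDegree_mul' hne, hg.natDegree_pow, hgn]
      rw [h2] at h1
      obtain ⟨u, rfl⟩ : ∃ u, k = l + 1 + u := ⟨k - l - 1, by omega⟩
      obtain ⟨e, rfl⟩ : ∃ e, s = n + e := ⟨s - n, by omega⟩
      have e1 : l + 1 + u - l = u + 1 := by omega
      have e2 : l + 1 + u - 1 - l = u := by omega
      have e3 : l + 1 + u - 1 = l + u := by omega
      have e4 : l + u - l = u := by omega
      have e5 : n + e - n = e := by omega
      rw [e1, e2] at h1
      have h3 : (h l).natDegree < e * u := by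
        have h4 := h1.2
        have h5 : (u + 1) * n = n * u + n := by ring
        have h6 : (n + e) * u = n * u + e * u := by ring
        rw [h5, h6] at h4
        omega
      rw [Finset.mem_coe, mem_EE, e3, e4, e5]
      refine ⟨?_, by omega⟩
      rcases Nat.eq_zero_or_pos u with hu | hu
      · subst hu
        simp at h3
      · omega
    · rw [if_neg hl] at hil
      simp at hil
  · ext1 m
    rw [coeff_Th, coeff_sum]
    by_cases hm : m < k
    · rw [if_pos hm, if_pos hm, hh m hm]
    · rw [if_neg hm, hf0 m hm]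
  · ext1 m
    rw [comp_C_mul_X_coeff, coeff_C_mul, coeff_sum]
    by_cases hm : m < k
    · rw [if_pos hm, hh m hm]
      have : g ^ k = g ^ (k - m) * g ^ m := by
        rw [← pow_add]; congr 1; omega
      rw [this]
      ring
    · rw [if_neg hm, hf0 m hm]
      simp

theorem exists_x [Infinite K] {σ τ : Type} [Finite σ] [Finite τ] (c : τ → K) :
    ∃ x : σ → K, Function.Injective x ∧ ∀ j a, x j ≠ c a := by
  classical
  have h1 : (Set.range c)ᶜ.Infinite := (Set.finite_range c).infinite_compl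
  have : Infinite ↥((Set.range c)ᶜ) := h1.to_subtype
  let ν := Infinite.natEmbedding ↥((Set.range c)ᶜ)
  obtain ⟨n, ⟨e⟩⟩ := Finite.exists_equiv_fin σ
  refine ⟨fun j => (ν (e j) : K), ?_, ?_⟩
  · intro i j hij
    exact e.injective (Fin.ext (ν.injective (Subtype.ext hij)))
  · intro j a hja
    exact (ν (e j)).2 ⟨a, hja.symm⟩

end BLOCKh

open BLOCKh in
theorem T_BLOCK (hRK : P_RK) (hU : P_UNIT) (hS : P_SUBST) (hD : P_DIV) (hC : P_CARDS) :
    P_BLOCK := by
  classical
  intro K _ _ ι _ w k s n N hk hw hn hns ⟨J', ⟨c', γ', hJ'⟩, hR⟩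
  obtain ⟨x, hx, hxc⟩ := exists_x (σ := {a // w a = k}) c'
  set g : K[X] := ∏ j : {a // w a = k}, (X - C (x j)) with hg
  have hgm : g.Monic := monic_prod_of_monic _ _ fun _ _ => monic_X_sub_C _
  have hgn : g.natDegree = n := by
    rw [hg, natDegree_prod_of_monic _ _ fun _ _ => monic_X_sub_C _]
    simp [hn, Nat.card_eq_fintype_card]
  have hge : ∀ a, g.eval (c' a) ≠ 0 := by
    intro a
    rw [hg, eval_prod, Finset.prod_ne_zero_iff]
    intro j _
    rw [eval_sub, eval_X, eval_C, sub_ne_zero]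
    exact (hxc j a).symm
  have hwk : ∀ a, ¬ w a < k → w a = k := fun a h => le_antisymm (hw a) (not_lt.1 h)
  let c : ι → K := fun a => if h : w a < k then c' ⟨a, h⟩ else x ⟨a, hwk a h⟩
  let γ : ι → K[X] := fun a => if h : w a < k then g * γ' ⟨a, h⟩ else 0
  refine ⟨vIdeal 1 w c γ, ⟨c, γ, rfl⟩, ?_⟩
  rw [hRK]
  have h1 := (hRK K J' _ N).1 hR
  have h2 := hC.2.1 k s n hk hns
  have h3 : Module.finrank K ↥(mspan K (↑(Zt k s n) : Set (ℕ × ℕ)) ⊓
      Submodule.restrictScalars K (vIdeal 1 w c γ)) ≤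
      Module.finrank K ↥(mspan K (↑(EE (s - n) (k - 1)) : Set (ℕ × ℕ)) ⊓
        Submodule.restrictScalars K J') := by
    have hfd : FiniteDimensional K (mspan K (↑(EE (s - n) (k - 1)) : Set (ℕ × ℕ))) :=
      FiniteDimensional.span_of_finite K ((Finset.finite_toSet _).image _)
    have hfd' : FiniteDimensional K ↥(mspan K (↑(EE (s - n) (k - 1)) : Set (ℕ × ℕ)) ⊓
        Submodule.restrictScalars K J') := Submodule.finiteDimensional_of_le inf_le_left
    refine le_trans (Submodule.finrank_mono ?_) (Submodule.finrank_map_le (Th k g) _)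
    rintro f ⟨hf1, hf2⟩
    have hf3 : ∀ a, f ∈ cIdeal (fun _ : Fin 1 => c a) (γ a) (w a) := by
      have : f ∈ vIdeal 1 w c γ := hf2
      unfold vIdeal at this
      exact (Ideal.mem_iInf.1 this)
    have hdiv : ∀ l < k, g ^ (k - l) ∣ f.coeff l := by
      refine hD K {a // w a = k} x hx k f ?_
      rintro ⟨a, ha⟩
      have h4 := hf3 a
      have hna : ¬ w a < k := by omega
      have e1 : c a = x ⟨a, ha⟩ := dif_neg hna
      have e2 : γ a = 0 := dif_neg hna
      rw [e1, e2, ha] at h4
      exact h4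
    obtain ⟨F, hF1, hF2, hF3⟩ := key hgm hgn hns hf1 hdiv
    refine ⟨F, ⟨hF1, ?_⟩, hF2⟩
    show F ∈ J'
    rw [hJ']
    unfold vIdeal
    refine Ideal.mem_iInf.2 ?_
    rintro ⟨a, ha⟩
    have h4 := hf3 a
    have e1 : c a = c' ⟨a, ha⟩ := dif_pos ha
    have e2 : γ a = g * γ' ⟨a, ha⟩ := dif_pos ha
    rw [e1, e2] at h4
    have h5 := hS K _ _ _ _ _ h4
    rw [hF3] at h5
    exact hU K _ _ g _ k F (hge ⟨a, ha⟩) h5
  rw [h2]
  omega

end Pool.Agent.H932R7
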