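import Mathlib
import Pool.Agent.H932R7.Stubs
import Pool.Agent.H932R7.Stubs3
import Pool.Agent.H932R7.TBLOCK

set_option autoImplicit false

/-!
# General removal of the points of the largest multiplicity
-/

namespace Pool.Agent.H932R7

open Polynomial Pool.Agent.H932R2 Pool.Agent.H932R3

namespace BLKh

open BLOCKh

variable {K : Type} [Field K]

/-- coefficient `l` is multiplied by `g ^ (k - l)`, for `l ≤ k` -/
noncomputable def Th1 (k : ℕ) (g : K[X]) : K[X][X] →ₗ[K] K[X][X] where
  toFun F := ∑ l ∈ Finset.range (k + 1), C (g ^ (k - l) * F.coeff l) * X ^ l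
  map_add' F G := by
    rw [← Finset.sum_add_distrib]
    refine Finset.sum_congr rfl fun l _ => ?_
    rw [coeff_add, mul_add, C_add, add_mul]
  map_smul' a F := by
    rw [RingHom.id_apply, Finset.smul_sum]
    refine Finset.sum_congr rfl fun l _ => ?_
    rw [coeff_smul, smul_eq, Algebra.smul_def]
    change C (g ^ (k - l) * (C a * F.coeff l)) * X ^ l = _
    simp only [C_mul]
    ring

theorem coeff_Th1 (k : ℕ) (g : K[X]) (F : K[X][X]) (m : ℕ) :
    (Th1 k g F).coeff m = if m < k + 1 then g ^ (k - m) * F.coeff m else 0 :=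
  BLOCKh.coeff_sum (k + 1) (fun l => g ^ (k - l) * F.coeff l) m

/-- The algebraic part of the claim. -/
theorem key1 {k n : ℕ} {D : ℕ → ℕ} {g : K[X]} (hg : g.Monic) (hgn : g.natDegree = n)
    {f : K[X][X]} (hf : f ∈ mspan K (↑(rowsF (k + 1) D) : Set (ℕ × ℕ)))
    (hd : ∀ l < k, g ^ (k - l) ∣ f.coeff l) :
    ∃ F : K[X][X], F ∈ mspan K (↑(rowsF (k + 1) fun l => D l - n * (k - l)) : Set (ℕ × ℕ)) ∧
      Th1 k g F = f ∧ f.comp (C g * X) = C (g ^ k) * F := by
  have hex : ∀ l, ∃ h : K[X], l < k + 1 → f.coeff l = g ^ (k - l) * h := by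
    intro l
    by_cases hl : l < k
    · obtain ⟨h, hh⟩ := hd l hl
      exact ⟨h, fun _ => hh⟩
    · refine ⟨f.coeff l, fun h => ?_⟩
      have : k - l = 0 := by omega
      rw [this, pow_zero, one_mul]
  choose h hh using hex
  rw [mem_mspan_coeff] at hf
  have hf0 : ∀ l, ¬ l < k + 1 → f.coeff l = 0 := by
    intro l hl
    ext i
    by_contra hne
    rw [coeff_zero] at hne
    have := hf i l hne
    rw [Finset.mem_coe, mem_rowsF] at this
    exact hl this.1
  refine ⟨∑ l ∈ Finset.range (k + 1), C (h l) * X ^ l, ?_, ?_, ?_⟩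
  · rw [mem_mspan_coeff]
    intro i l hil
    rw [BLOCKh.coeff_sum] at hil
    by_cases hl : l < k + 1
    · rw [if_pos hl] at hil
      have hne : h l ≠ 0 := by
        rintro h0
        rw [h0] at hil
        simp at hil
      have hi : i ≤ (h l).natDegree := le_natDegree_of_ne_zero hil
      have hfne : f.coeff l ≠ 0 := by
        rw [hh l hl]
        exact mul_ne_zero (pow_ne_zero _ hg.ne_zero) hne
      have h1 : ((f.coeff l).natDegree, l) ∈ (↑(rowsF (k + 1) D) : Set (ℕ × ℕ)) :=
        hf _ l (by rw [coeff_natDegree]; exact leadingCoeff_ne_zero.2 hfne)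
      rw [Finset.mem_coe, mem_rowsF] at h1
      have h2 : (f.coeff l).natDegree = (k - l) * n + (h l).natDegree := by
        rw [hh l hl, (hg.pow (k - l)).natDegree_mul' hne, hg.natDegree_pow, hgn]
      rw [h2] at h1
      rw [Finset.mem_coe, mem_rowsF]
      refine ⟨hl, ?_⟩
      have h3 := h1.2
      rw [mul_comm (k - l) n] at h3
      omega
    · rw [if_neg hl] at hil
      simp at hil
  · ext1 m
    rw [coeff_Th1, BLOCKh.coeff_sum]
    by_cases hm : m < k + 1
    · rw [if_pos hm, if_pos hm, hh m hm]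
    · rw [if_neg hm, hf0 m hm]
  · ext1 m
    rw [comp_C_mul_X_coeff, coeff_C_mul, BLOCKh.coeff_sum]
    by_cases hm : m < k + 1
    · rw [if_pos hm, hh m hm]
      have : g ^ k = g ^ (k - m) * g ^ m := by
        rw [← pow_add]; congr 1; omega
      rw [this]
      ring
    · rw [if_neg hm, hf0 m hm]
      simp

theorem card_eq {k n : ℕ} {D : ℕ → ℕ} (hD : ∀ l ≤ k, n * (k - l) ≤ D l) :
    (rowsF (k + 1) D).card =
      (rowsF (k + 1) fun l => D l - n * (k - l)).card + n * (k + 1).choose 2 := by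
  have h1 : ∑ l ∈ Finset.range (k + 1), (k - l) = (k + 1).choose 2 := by
    have h2 := Finset.sum_range_reflect (fun i => i) (k + 1)
    simp only [Nat.add_sub_cancel] at h2
    rw [h2, Finset.sum_range_id, Nat.choose_two_right]
  rw [card_rowsF, card_rowsF, ← h1, Finset.mul_sum, ← Finset.sum_add_distrib]
  refine Finset.sum_congr rfl fun l hl => ?_
  rw [Finset.mem_range] at hl
  have := hD l (by omega)
  omega

end BLKh

open BLOCKh BLKh in
theorem T_BLK (hRK : P_RK) (hU : P_UNIT) (hS : P_SUBST) (hD : P_DIV) : P_BLK := by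
  classical
  intro K _ _ ι _ w k n N D hk hw hn hns ⟨J', ⟨c', γ', hJ'⟩, hR⟩
  obtain ⟨x, hx, hxc⟩ := exists_x (σ := {a // w a = k}) c'
  set g : K[X] := ∏ j : {a // w a = k}, (X - C (x j)) with hg
  have hgm : g.Monic := monic_prod_of_monic _ _ fun _ _ => monic_X_sub_C _
  have hgn : g.natDegree = n := by
    rw [hg, natDegree_prod_of_monic _ _ fun _ _ => monic_X_sub_C _]
    simp [hn, Nat.card_eq_fintype_card]
  have hge : ∀ a, g.eval (c' a) ≠ 0 := by
    intro a
    rw [hg, eval_prod, Finset.prod_ne_zero_iff]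
    intro j _
    rw [eval_sub, eval_X, eval_C, sub_ne_zero]
    exact (hxc j a).symm
  have hwk : ∀ a, ¬ w a < k → w a = k := fun a h => le_antisymm (hw a) (not_lt.1 h)
  let c : ι → K := fun a => if h : w a < k then c' ⟨a, h⟩ else x ⟨a, hwk a h⟩
  let γ : ι → K[X] := fun a => if h : w a < k then g * γ' ⟨a, h⟩ else 0
  refine ⟨vIdeal 1 w c γ, ⟨c, γ, rfl⟩, ?_⟩
  rw [hRK]
  have h1 := (hRK K J' _ N).1 hR
  have h2 := card_eq (D := D) hns
  have h3 : Module.finrank K ↥(mspan K (↑(rowsF (k + 1) D) : Set (ℕ × ℕ)) ⊓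
      Submodule.restrictScalars K (vIdeal 1 w c γ)) ≤
      Module.finrank K
        ↥(mspan K (↑(rowsF (k + 1) fun l => D l - n * (k - l)) : Set (ℕ × ℕ)) ⊓
        Submodule.restrictScalars K J') := by
    have hfd : FiniteDimensional K
        (mspan K (↑(rowsF (k + 1) fun l => D l - n * (k - l)) : Set (ℕ × ℕ))) :=
      FiniteDimensional.span_of_finite K ((Finset.finite_toSet _).image _)
    have hfd' : FiniteDimensional K
        ↥(mspan K (↑(rowsF (k + 1) fun l => D l - n * (k - l)) : Set (ℕ × ℕ)) ⊓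
        Submodule.restrictScalars K J') := Submodule.finiteDimensional_of_le inf_le_left
    refine le_trans (Submodule.finrank_mono ?_) (Submodule.finrank_map_le (Th1 k g) _)
    rintro f ⟨hf1, hf2⟩
    have hf3 : ∀ a, f ∈ cIdeal (fun _ : Fin 1 => c a) (γ a) (w a) := by
      have : f ∈ vIdeal 1 w c γ := hf2
      unfold vIdeal at this
      exact (Ideal.mem_iInf.1 this)
    have hdiv : ∀ l < k, g ^ (k - l) ∣ f.coeff l := by
      refine hD K {a // w a = k} x hx k f ?_
      rintro ⟨a, ha⟩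
      have h4 := hf3 a
      have hna : ¬ w a < k := by omega
      have e1 : c a = x ⟨a, ha⟩ := dif_neg hna
      have e2 : γ a = 0 := dif_neg hna
      rw [e1, e2, ha] at h4
      exact h4
    obtain ⟨F, hF1, hF2, hF3⟩ := key1 hgm hgn hf1 hdiv
    refine ⟨F, ⟨hF1, ?_⟩, hF2⟩
    show F ∈ J'
    rw [hJ']
    unfold vIdeal
    refine Ideal.mem_iInf.2 ?_
    rintro ⟨a, ha⟩
    have h4 := hf3 a
    have e1 : c a = c' ⟨a, ha⟩ := dif_pos ha
    have e2 : γ a = g * γ' ⟨a, ha⟩ := dif_pos ha
    rw [e1, e2] at h4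
    have h5 := hS K _ _ _ _ _ h4
    rw [hF3] at h5
    exact hU K _ _ g _ k F (hge ⟨a, ha⟩) h5
  rw [h2]
  omega

end Pool.Agent.H932R7
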