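import Mathlib
import Pool.Agent.H932R7.Stubs

set_option autoImplicit false

namespace Pool.Agent.H932R7

open Polynomial Pool.Agent.H932R2 Pool.Agent.H932R3

namespace INDFh

theorem rk_zero (K : Type) [Field K] {ι : Type} (w : ι → ℕ) (M : Set (ℕ × ℕ)) :
    RkS (PF K w) M 0 :=
  ⟨vIdeal 1 w (fun _ => 0) (fun _ => 0), ⟨_, _, rfl⟩, Fin.elim0, fun i => i.elim0,
    fun _ _ i => i.elim0⟩

theorem step (hST : P_STAB) (hT : P_TRAP) (hB : P_BLOCK) (K : Type) [Field K] [CharZero K]
    (ι : Type) [Fintype ι] (w : ι → ℕ) (k s n κ N : ℕ) (hk : 0 < k) (hw : ∀ a, w a ≤ k)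
    (hn : n = Nat.card {a // w a = k}) (hns : n ≤ s)
    (h : RkS (PF K (fun a : {a // w a < k} => w a))
      (↑(EE (s + 2 * κ - n) (k - 1)) : Set (ℕ × ℕ)) N) :
    RkS (PF K w) (↑(Zt k s (n + κ * (k - 1))) : Set (ℕ × ℕ)) (N + n * (k + 1).choose 2) := by
  have h1 := hB K ι w k (s + 2 * κ) n N hk hw hn (by omega) h
  refine RkS.compressY (hST K ι w) (s + κ) k (fun j hj _ => ?_) (hT k s n κ k le_rfl) h1
  exact Nat.cast_ne_zero.mpr (by omega)

theorem c2 (k : ℕ) : 2 * (k + 1).choose 2 = (k + 1) * k := by
  rw [Nat.choose_two_right, Nat.add_sub_cancel, mul_comm,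
    Nat.div_mul_cancel (by
      have := (Nat.even_mul_succ_self k).two_dvd
      rwa [mul_comm] at this)]

theorem c3 (k : ℕ) : (k + 1 + 1).choose 2 = (k + 1).choose 2 + (k + 1) := by
  rw [Nat.choose_succ_succ (k + 1) 1, Nat.choose_one_right]
  ring

theorem aw_zero {ι : Type} [Fintype ι] (w : ι → ℕ) (hw : ∀ a, w a ≤ 0) : Aw w = 0 := by
  unfold Aw
  apply Finset.sum_eq_zero
  intro a _
  have := hw a
  have h0 : w a = 0 := by omega
  rw [h0]
  rfl

end INDFh

open INDFh

theorem T_IND (hST : P_STAB) (hT : P_TRAP) (hC : P_CARDS) (hB : P_BLOCK) (hSP : P_SPLIT) :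
    P_IND := by
  intro K _ _ k
  induction k with
  | zero =>
    intro ι _ w s hw _
    rw [aw_zero w hw]
    exact rk_zero K w _
  | succ k ih =>
    intro ι _ w s hw hs
    have hsp := hSP ι w (k + 1) hw
    set n := Nat.card {a // w a = k + 1} with hn
    have hw' : ∀ a : {a // w a < k + 1}, w a ≤ k := fun a => Nat.lt_succ_iff.mp a.2
    rw [c3] at hs hsp
    have hC2 := c2 k
    set C2 := (k + 1).choose 2 with hC2d
    have hW : Wst (k + 1) = Wst k + (k + 1) * (k - 1) := rfl
    rw [hW] at hs
    have hns : n ≤ s := by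
      by_contra hcon
      push Not at hcon
      have h1 : s * (C2 + (k + 1)) < n * (C2 + (k + 1)) :=
        Nat.mul_lt_mul_of_pos_right hcon (by omega)
      omega
    rw [hC.1]
    rcases Nat.eq_zero_or_pos k with hk | hk
    · subst hk
      have h1 := ih {a // w a < 0 + 1} (fun a => w a) (s + 2 * 0 - n) hw' (by
        rw [aw_zero _ hw']
        simp [Wst])
      have h2 := step hST hT hB K ι w (0 + 1) s n 0 _ (by omega) hw hn hns h1
      rw [hsp]
      rw [c3] at h2
      refine RkS.mono ?_ h2
      exact_mod_cast hC.2.2.1 (0 + 1) s _ s (by simpa using hns)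
    · set κ := (s - n) / k with hκ
      set e := (s - n) % k with he
      have he1 : e < k := Nat.mod_lt _ hk
      have he2 : k * κ + e = s - n := Nat.div_add_mod _ _
      have h1 := ih {a // w a < k + 1} (fun a => w a) (s + 2 * κ - n) hw' (by
        obtain ⟨d, hd⟩ : ∃ d, s = n + d := ⟨s - n, by omega⟩
        have e1 : s + 2 * κ - n = d + 2 * κ := by omega
        have e2 : k * κ + e = d := by omega
        have e3 : (d + 2 * κ) * C2 + e * (k + 1) = d * (C2 + (k + 1)) := by
          calc (d + 2 * κ) * C2 + e * (k + 1) = d * C2 + κ * (2 * C2) + e * (k + 1) := by ring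
            _ = d * C2 + κ * ((k + 1) * k) + e * (k + 1) := by rw [hC2]
            _ = d * C2 + (k * κ + e) * (k + 1) := by ring
            _ = d * (C2 + (k + 1)) := by rw [e2]; ring
        have e4 : e * (k + 1) ≤ (k + 1) * (k - 1) := by
          rw [mul_comm]
          exact Nat.mul_le_mul_left _ (by omega)
        rw [e1]
        rw [hsp, hd] at hs
        have e5 : (n + d) * (C2 + (k + 1)) = n * (C2 + (k + 1)) + d * (C2 + (k + 1)) := by ring
        rw [e5] at hs
        omega)
      have h2 := step hST hT hB K ι w (k + 1) s n κ _ (by omega) hw hn hns h1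
      rw [hsp]
      rw [c3] at h2
      refine RkS.mono ?_ h2
      have h3 : n + κ * (k + 1 - 1) ≤ s := by
        rw [Nat.add_sub_cancel, mul_comm]
        omega
      exact_mod_cast hC.2.2.1 (k + 1) s _ s h3

theorem T_FULL (hST : P_STAB) (hT : P_TRAP) (hC : P_CARDS) (hB : P_BLOCK) (hSP : P_SPLIT) :
    P_FULL := by
  intro K _ _ k
  induction k with
  | zero =>
    intro ι _ w s hw _
    have h0 : (EE s 0).card = 0 := by
      have := card_EE s 0
      omega
    rw [h0]
    exact rk_zero K w _
  | succ k ih =>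
    intro ι _ w s hw hs
    have hsp := hSP ι w (k + 1) hw
    set n := Nat.card {a // w a = k + 1} with hn
    have hw' : ∀ a : {a // w a < k + 1}, w a ≤ k := fun a => Nat.lt_succ_iff.mp a.2
    rw [c3] at hs hsp
    have hC2 := c2 k
    have hcc := hC.2.1 (k + 1)
    rw [c3] at hcc
    set C2 := (k + 1).choose 2 with hC2d
    have hW : Wst (k + 1) = Wst k + (k + 1) * (k - 1) := rfl
    rw [hW] at hs
    rcases le_or_gt s n with hsn | hsn
    · have h1 := hB K ι w (k + 1) n n 0 (by omega) hw hn le_rfl (rk_zero K _ _)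
      rw [c3] at h1
      have h2 := hcc n n (by omega) le_rfl
      have h0 : (EE (n - n) (k + 1 - 1)).card = 0 := by
        have := card_EE (n - n) (k + 1 - 1)
        rw [Nat.sub_self, zero_mul, zero_mul] at this
        rw [Nat.sub_self]
        omega
      rw [h0] at h2
      rw [← h2] at h1
      refine RkS.subset h1 ?_
      rw [← hC.1]
      intro p hp
      obtain ⟨i, l⟩ := p
      rw [mem_EE] at hp ⊢
      exact ⟨hp.1, lt_of_lt_of_le hp.2 (Nat.mul_le_mul_right _ hsn)⟩
    · rcases Nat.eq_zero_or_pos k with hk | hk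
      · exfalso
        subst hk
        have h0 := aw_zero (fun a : {a // w a < 0 + 1} => w a) hw'
        rw [h0] at hsp
        have h1 : C2 = 0 := by rw [hC2d]; rfl
        rw [h1] at hs hsp
        simp [Wst] at hs hsp
        omega
      · set κ := (s - n + (k - 1)) / k with hκ
        set e := (k - 1) - (s - n + (k - 1)) % k with he
        have hm : (s - n + (k - 1)) % k < k := Nat.mod_lt _ hk
        have he2 : k * κ + (s - n + (k - 1)) % k = s - n + (k - 1) := Nat.div_add_mod _ _
        have he1 : e ≤ k - 1 := by omega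
        have he3 : k * κ = s - n + e := by omega
        obtain ⟨d, hd⟩ : ∃ d, s = n + d := ⟨s - n, by omega⟩
        have e1 : s + 2 * κ - n = d + 2 * κ := by omega
        have e2 : k * κ = d + e := by omega
        have h1 := ih {a // w a < k + 1} (fun a => w a) (s + 2 * κ - n) hw' (by
          have e3 : (d + 2 * κ) * C2 = d * (C2 + (k + 1)) + e * (k + 1) := by
            calc (d + 2 * κ) * C2 = d * C2 + κ * (2 * C2) := by ring
              _ = d * C2 + κ * ((k + 1) * k) := by rw [hC2]
              _ = d * C2 + (k * κ) * (k + 1) := by ring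
              _ = d * (C2 + (k + 1)) + e * (k + 1) := by rw [e2]; ring
          have e4 : e * (k + 1) ≤ (k + 1) * (k - 1) := by
            rw [mul_comm]
            exact Nat.mul_le_mul_left _ (by omega)
          rw [e1]
          rw [hsp, hd] at hs
          have e5 : (n + d) * (C2 + (k + 1)) = n * (C2 + (k + 1)) + d * (C2 + (k + 1)) := by ring
          rw [e5] at hs
          omega)
        have h2 := step hST hT hB K ι w (k + 1) s n κ _ (by omega) hw hn hsn.le h1
        rw [c3] at h2
        have h3 := hcc (s + 2 * κ) n (by omega) (by omega)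
        have h4 := hC.2.2.2 (k + 1) s n κ
        rw [h3] at h4
        have h5 : (EE (s + 2 * κ - n) k).card + n * (C2 + (k + 1)) =
            (Zt (k + 1) s (n + κ * (k + 1 - 1))).card := by
          rw [h4]
          rfl
        rw [h5] at h2
        refine RkS.subset h2 ?_
        rw [hC.1]
        apply hC.2.2.1
        rw [Nat.add_sub_cancel, mul_comm κ k]
        omega

end Pool.Agent.H932R7
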