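import Mathlib
import Pool.Agent.H932R7.Stubs

set_option autoImplicit false

/-!
# Task RANKS (helper746): the ranks in degree `d`
-/

namespace Pool.Agent.H932R7

open Polynomial Pool.Agent.H932R2 Pool.Agent.H932R3

namespace RANKSh

theorem two_choose (d : ℕ) : 2 * (d + 2).choose 2 = (d + 1) * (d + 2) := by
  have h5 : (d + 2).choose 2 * 2 = (d + 2) * (d + 1) := by
    rw [Nat.choose_two_right, Nat.div_mul_cancel (Nat.even_mul_pred_self _).two_dvd]
    rfl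
  linarith

theorem num {m r : ℕ} (hm : 0 < m) (h : (m : ℝ) + 6 * Real.sqrt m + 9 ≤ r) :
    10 ≤ r ∧ (m : ℝ) ≤ r - 6 * Real.sqrt r + 11 := by
  have hmR : (1 : ℝ) ≤ m := by exact_mod_cast hm
  have hs : (1 : ℝ) ≤ Real.sqrt m := by
    rw [show (1 : ℝ) = Real.sqrt 1 by simp]
    exact Real.sqrt_le_sqrt hmR
  have hss : Real.sqrt m * Real.sqrt m = m := Real.mul_self_sqrt (by linarith)
  have hr0 : (0 : ℝ) ≤ r := Nat.cast_nonneg r
  have hrr : Real.sqrt r * Real.sqrt r = r := Real.mul_self_sqrt hr0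
  have h1 : Real.sqrt m + 3 ≤ Real.sqrt r := by
    apply Real.le_sqrt_of_sq_le
    nlinarith
  refine ⟨?_, ?_⟩
  · have : (10 : ℝ) ≤ r := by linarith
    exact_mod_cast this
  · nlinarith

end RANKSh

open RANKSh in
theorem T_RANKS (hST : P_STAB) (hI : P_IND) (hF : P_FULL) (hM : P_MAST) (hW : P_WST) :
    P_RANKS := by
  intro K _ _ n w m d hm hw hB
  obtain ⟨q, hq⟩ : ∃ q, q = (m + 1).choose 2 := ⟨_, rfl⟩
  obtain ⟨c, hc⟩ : ∃ c, c = (d + 2).choose 2 := ⟨_, rfl⟩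
  obtain ⟨W, hWd⟩ : ∃ W, W = 2 * (m + 1).choose 3 := ⟨_, rfl⟩
  have hw1 := hW m hm
  rw [← hq, ← hWd] at hw1
  have hc2 : 2 * c = (d + 1) * (d + 2) := by rw [hc]; exact two_choose d
  obtain ⟨m', rfl⟩ : ∃ m', m = m' + 1 := ⟨m - 1, by omega⟩
  have hq2 : 2 * q = (m' + 1) * (m' + 1 + 1) := by rw [hq]; exact two_choose m'
  have hq0 : 0 < q := by nlinarith
  rw [← hc, ← hWd]
  -- the size of `r := c / q`
  have hr1 : c / q * q ≤ c := Nat.div_mul_le_self c q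
  have hr2 : c < (c / q + 1) * q := by
    have := Nat.lt_div_mul_add (a := c) hq0
    linarith
  obtain ⟨r, hr⟩ : ∃ r, r = c / q := ⟨_, rfl⟩
  rw [← hr] at hr1 hr2
  have hqR : (0 : ℝ) < q := by exact_mod_cast hq0
  have hq2R : (2 : ℝ) * q = ((m' + 1 : ℕ) : ℝ) * (((m' + 1 : ℕ) : ℝ) + 1) := by
    exact_mod_cast hq2
  have hc2R : (2 : ℝ) * c = (((d + 1) * (d + 2) : ℕ) : ℝ) := by exact_mod_cast hc2
  have hr2R : (c : ℝ) < (r + 1) * q := by exact_mod_cast hr2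
  have hrbig : ((m' + 1 : ℕ) : ℝ) + 6 * Real.sqrt ((m' + 1 : ℕ) : ℝ) + 9 ≤ r := by
    unfold Big at hB
    rw [← hq2R, ← hc2R] at hB
    have h1 : (q : ℝ) * (((m' + 1 : ℕ) : ℝ) + 6 * Real.sqrt ((m' + 1 : ℕ) : ℝ) + 10) <
        q * (r + 1) := by linarith
    have h2 := lt_of_mul_lt_mul_left h1 hqR.le
    linarith
  have hEr : ∀ r : ℕ, r * (m' + 1) * (m' + 1 + 1) = 2 * (r * q) := by
    intro r
    calc r * (m' + 1) * (m' + 1 + 1) = r * ((m' + 1) * (m' + 1 + 1)) := by ring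
      _ = r * (2 * q) := by rw [hq2]
      _ = 2 * (r * q) := by ring
  refine ⟨fun h => ?_, fun h => ?_⟩
  · obtain ⟨h10, hsq⟩ := num hm hrbig
    have h1 : RkS (PF K w) (↑(EE r (m' + 1)) : Set (ℕ × ℕ)) (Aw w) := by
      apply hI K (m' + 1) (Fin n) w r hw
      rw [← hq]
      have h2 : (r + 1) * q = r * q + q := by ring
      omega
    refine (hM K (PF K w) (hST K (Fin n) w) r (m' + 1) h10 hm hsq).1 _ d h1 ?_
    rw [hEr, ← hc2]
    omega
  · have hr3 : (c + q - 1) / q * q ≤ c + q - 1 := Nat.div_mul_le_self _ q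
    have hr4 : c + q - 1 < (c + q - 1) / q * q + q := Nat.lt_div_mul_add hq0
    obtain ⟨r', hr'⟩ : ∃ r', r' = (c + q - 1) / q := ⟨_, rfl⟩
    rw [← hr'] at hr3 hr4
    have hle : r ≤ r' := by
      by_contra hcon
      have h2 : (r' + 1) * q ≤ r * q := Nat.mul_le_mul_right _ (by omega)
      have h3 : (r' + 1) * q = r' * q + q := by ring
      omega
    obtain ⟨h10, hsq⟩ := num (r := r') hm (hrbig.trans (by exact_mod_cast hle))
    have h1 : RkS (PF K w) (↑(EE r' (m' + 1)) : Set (ℕ × ℕ)) (EE r' (m' + 1)).card := by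
      apply hF K (m' + 1) (Fin n) w r' hw
      rw [← hq]
      omega
    refine (hM K (PF K w) (hST K (Fin n) w) r' (m' + 1) h10 hm hsq).2 d h1 ?_
    rw [hEr, ← hc2]
    omega

end Pool.Agent.H932R7
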