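import Mathlib
import Pool.Agent.H932R7.Stubs

set_option autoImplicit false

/-!
# Stability of the family of all fat points with given multiplicities
-/

namespace Pool.Agent.H932R7

open Polynomial Pool.Agent.H932R2 Pool.Agent.H932R3

theorem T_STAB : P_STAB := by
  intro K _ ι w
  constructor
  · rintro J ⟨c, g, rfl⟩ ρ t _
    refine ⟨vIdeal 1 w c (fun a => X ^ ρ + C t * g a), ⟨c, _, rfl⟩, ?_⟩
    intro f hf
    rw [Ideal.mem_comap]
    unfold vIdeal at hf ⊢
    rw [Ideal.mem_iInf] at hf ⊢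
    intro a
    exact Ideal.mem_comap.1 (cIdeal_subY (fun _ : Fin 1 => c a) (g a) (w a) ρ t (hf a))
  · rintro J ⟨c, g, rfl⟩ t ht
    refine ⟨vIdeal 1 w (fun a => 1 + t * c a) (fun a => (g a).comp (C t⁻¹ * (X - 1))),
      ⟨_, _, rfl⟩, ?_⟩
    intro f hf
    rw [Ideal.mem_comap]
    unfold vIdeal at hf ⊢
    rw [Ideal.mem_iInf] at hf ⊢
    intro a
    exact Ideal.mem_comap.1 (cIdeal_subX (fun _ : Fin 1 => c a) (g a) (w a) t ht (hf a))

end Pool.Agent.H932R7
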