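import Mathlib
import Pool.Agent.H932R7.Stubs3
import Pool.Agent.H932R2.Main
import Pool.Agent.H932R3.Stair

set_option autoImplicit false

/-!
# Comparison of two systems of multiplicities
-/

namespace Pool.Agent.H932R7

open Polynomial Pool.Agent.H932R2 Pool.Agent.H932R3

namespace TRh

theorem cIdeal_zero {K : Type} [Field K] (x : Fin 1 → K) (γ : K[X]) : cIdeal x γ 0 = ⊤ := by
  exact (pow_zero (Ideal.span {X - C γ, C (rootPoly x)})).trans Ideal.one_eq_top

theorem cIdeal_anti {K : Type} [Field K] {m m' : ℕ} (h : m ≤ m') (x : Fin 1 → K) (γ : K[X]) :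
    cIdeal x γ m' ≤ cIdeal x γ m := Ideal.pow_le_pow_right h

theorem Aw_eq {ι : Type} [Fintype ι] (w : ι → ℕ) : ∑ a, (EE 1 (w a)).card = Aw w := by
  unfold Aw
  exact Finset.sum_congr rfl fun a _ => card_EE_eq (w a)

end TRh

theorem T_TR (_hRK : P_RK) : P_TR := by
  intro K _ _ ι ι' _ _ w w' e hw M
  classical
  refine ⟨?_, ?_⟩
  · rintro ⟨J', ⟨c', γ', rfl⟩, h⟩
    set w'' : ι' → ℕ := Function.extend e (fun a => w a.1) 0 with hw''
    have he : ∀ a, w'' (e a) = w a.1 := fun a => e.injective.extend_apply _ _ _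
    have hn : ∀ b, (¬ ∃ a, e a = b) → w'' b = 0 := fun b hb => Function.extend_apply' _ _ _ hb
    have hle : ∀ b, w'' b ≤ w' b := by
      intro b
      by_cases hb : ∃ a, e a = b
      · obtain ⟨a, rfl⟩ := hb
        rw [he]
        exact hw a
      · rw [hn b hb]
        exact Nat.zero_le _
    rw [← TRh.Aw_eq] at h
    have h1 := RkI.smaller hle h
    rw [TRh.Aw_eq] at h1
    have h2 : Aw w'' = Aw w := by
      unfold Aw
      have e1 := Fintype.sum_of_injective e e.injective
        (fun a : {a // w a ≠ 0} => (w a.1 + 1).choose 2) (fun b => (w'' b + 1).choose 2)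
        (fun b hb => by
          show (w'' b + 1).choose 2 = 0
          rw [hn b hb]
          rfl) (fun a => by
          show _ = (w'' (e a) + 1).choose 2
          rw [he])
      have e2 := Fintype.sum_of_injective (Subtype.val : {a // w a ≠ 0} → ι)
        Subtype.val_injective (fun a : {a // w a ≠ 0} => (w a.1 + 1).choose 2)
        (fun b => (w b + 1).choose 2)
        (fun b hb => by
          have hb0 : w b = 0 := by
            by_contra h0
            exact hb ⟨⟨b, h0⟩, rfl⟩
          show (w b + 1).choose 2 = 0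
          rw [hb0]
          rfl) (fun a => rfl)
      rw [← e1, ← e2]
    rw [h2] at h1
    refine ⟨_, ⟨fun a => if h : w a ≠ 0 then c' (e ⟨a, h⟩) else 0,
      fun a => if h : w a ≠ 0 then γ' (e ⟨a, h⟩) else 0, rfl⟩, h1.anti ?_⟩
    refine le_iInf fun b => ?_
    by_cases hb : ∃ a, e a = b
    · obtain ⟨⟨a, ha⟩, rfl⟩ := hb
      refine (iInf_le _ a).trans ?_
      rw [he]
      simp only [dif_pos ha]
      exact le_rfl
    · rw [hn b hb, TRh.cIdeal_zero]
      exact le_top
  · rintro N ⟨J, ⟨c, γ, rfl⟩, h⟩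
    refine ⟨_, ⟨Function.extend e (fun a => c a.1) 0, Function.extend e (fun a => γ a.1) 0,
      rfl⟩, h.anti ?_⟩
    refine le_iInf fun a => ?_
    by_cases ha : w a ≠ 0
    · refine (iInf_le _ (e ⟨a, ha⟩)).trans ?_
      rw [e.injective.extend_apply, e.injective.extend_apply]
      exact TRh.cIdeal_anti (hw ⟨a, ha⟩) _ _
    · have ha0 : w a = 0 := by
        by_contra h0
        exact ha h0
      rw [ha0, TRh.cIdeal_zero]
      exact le_top

end Pool.Agent.H932R7
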