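import Mathlib
import Pool.Agent.H932R7.All
import Pool.Agent.H932R7.Ch
import Pool.Agent.H932R7.TRK
import Pool.Agent.H932R7.TTRAP
import Pool.Agent.H932R7.TCARDS
import Pool.Agent.H932R7.TUNIT
import Pool.Agent.H932R7.TSUBST
import Pool.Agent.H932R7.TDIV
import Pool.Agent.H932R7.TSTAB
import Pool.Agent.H932R7.THOP
import Pool.Agent.H932R7.TMAST
import Pool.Agent.H932R7.TBLOCK
import Pool.Agent.H932R7.TSW
import Pool.Agent.H932R7.TINDF
import Pool.Agent.H932R7.TRANKS
import Pool.Agent.H932R7.TFIN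
import Pool.Agent.H932R7.TBLK
import Pool.Agent.H932R7.TSTART
import Pool.Agent.H932R7.TX
import Pool.Agent.H932R7.TR3
import Pool.Agent.H932R7.TTR
import Pool.Agent.H932R7.TR4

set_option autoImplicit false

/-!
# Arbitrary bounded multiplicities: the main theorem

`n` general points of the plane over a field of characteristic zero with arbitrary multiplicities
`w i ≤ m`. The tasks were proved by the seats named in `departures/helper932.md`.
-/

namespace Pool.Agent.H932R7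

open Polynomial Pool.Agent.H932R2 Pool.Agent.H932R3

theorem t_block : P_BLOCK := T_BLOCK T_RK T_UNIT T_SUBST T_DIV T_CARDS

theorem t_ranks : P_RANKS :=
  T_RANKS T_STAB (T_IND T_STAB T_TRAP T_CARDS t_block T_SPLIT)
    (T_FULL T_STAB T_TRAP T_CARDS t_block T_SPLIT) T_MAST T_WST

theorem t_x : P_X := T_X T_STAB T_CH (T_BLK T_RK T_UNIT T_SUBST T_DIV) T_SPLIT

theorem t_r4 : P_R4 := T_R4 t_ranks (T_R3 T_STAB T_START t_x) (T_TR T_RK)

/-- The main theorem. -/
theorem bounded (L : Type) [Field L] [CharZero L] {n : ℕ} {w : Fin n → ℕ} {m : ℕ} (hm : 0 < m)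
    (hw : ∀ a, w a ≤ m) :
    ∃ F : MvPolynomial (Fin n × Fin 2) ℚ, F ≠ 0 ∧ ∀ P : Fin n → Fin 2 → L,
      MvPolynomial.aeval (fun ij : Fin n × Fin 2 => P ij.1 ij.2) F ≠ 0 →
        ∀ d : ℕ, ((m : ℝ) * (m + 1) * (m + 6 * Real.sqrt m + 10) ≤
            ((max ((d + 1) * (d + 2)) (∑ i, (w i + 1).choose 2) : ℕ) : ℝ) ∧
          ((∑ i ∈ Finset.univ.filter (fun i => w i ≠ 1), (w i + 1).choose 2
                + 2 * (m + 1).choose 3 ≤ (d + 2).choose 2 ∨
            (d + 2).choose 2 + 2 * (m + 1).choose 3 ≤ ∑ i, (w i + 1).choose 2) ∨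
            ∃ k : ℕ, 0 < k ∧ (∀ i, w i ≤ 1 ∨ k ≤ w i) ∧
              2 * (m * (m + 1) * (m + 2)) + k * (k + 1) ≤
                (Finset.univ.filter fun i => w i = k).card * (k * (k + 1)))) →
          ExpDim L w P d := by
  obtain ⟨F, hF, hF'⟩ := fin_all (T_FIN t_ranks T_HOP) t_ranks T_HOP T_RK t_r4 L n w m hm hw
  exact ⟨F, hF, fun P hP d hd => hF' P hP d hd.1 hd.2⟩

end Pool.Agent.H932R7
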