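import Mathlib
import Pool.Agent.H932R7.Final
import Pool.Agent.H932R7.Fin5

set_option autoImplicit false

/-!
# Arbitrary bounded multiplicities: the main theorem with a threshold
-/

namespace Pool.Agent.H932R7

open Polynomial Pool.Agent.H932R2 Pool.Agent.H932R3

theorem t_blk : P_BLK := T_BLK T_RK T_UNIT T_SUBST T_DIV

theorem t_x3 : P_X3 :=
  T_X3 T_STAB T_CH t_blk T_SPLIT (T_IND T_STAB T_TRAP T_CARDS t_block T_SPLIT)
    (T_FULL T_STAB T_TRAP T_CARDS t_block T_SPLIT)

theorem t_r42 : P_R42 :=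
  T_R42 (T_R32 T_STAB T_START (T_X2 T_STAB T_CH t_blk T_SPLIT)) (T_TR T_RK)

theorem num_le {k x : ℕ} (h : k < x) :
    x * (x + 1) * (x + 3) + (4 * (k + 1).choose 3 + k * (k + 1)) ≤ 2 * (x * (x + 1) * (x + 2)) := by
  have h1 := FINh.six_choose k
  obtain ⟨e, rfl⟩ : ∃ e, x = k + 1 + e := ⟨x - (k + 1), by omega⟩
  have h2 : 3 * (4 * (k + 1).choose 3 + k * (k + 1)) ≤ 2 * ((k + 1) * k * k) + 3 * (k * (k + 1)) := by
    omega
  have h3 : 2 * ((k + 1) * k * k) + 3 * (k * (k + 1)) ≤
      3 * ((k + 1 + e) * (k + 1 + e + 1) * (k + 1 + e + 1)) := by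
    have h4 : (k + 1) * (k + 2) * (k + 2) ≤ (k + 1 + e) * (k + 1 + e + 1) * (k + 1 + e + 1) :=
      Nat.mul_le_mul (Nat.mul_le_mul (by omega) (by omega)) (by omega)
    nlinarith
  have h5 : 2 * ((k + 1 + e) * (k + 1 + e + 1) * (k + 1 + e + 2)) =
      (k + 1 + e) * (k + 1 + e + 1) * (k + 1 + e + 3) +
        (k + 1 + e) * (k + 1 + e + 1) * (k + 1 + e + 1) := by ring
  omega

theorem freq_sum {n : ℕ} (w v : Fin n → ℕ) (k : ℕ) (hv : ∀ b, min 2 k ≤ w b → v b = w b)
    (a : Fin n) (ha : k < w a) :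
    ∑ j ∈ Finset.univ.filter (fun j => min 2 k ≤ w j ∧ w j < w a), w j * (w j + 1) ≤
      2 * ∑ b ∈ Finset.univ.filter (fun b => v b < v a), (v b + 1).choose 2 := by
  classical
  have hva : v a = w a := hv a (by omega)
  rw [Finset.mul_sum, Finset.sum_filter, Finset.sum_filter]
  refine Finset.sum_le_sum fun b _ => ?_
  by_cases h : min 2 k ≤ w b ∧ w b < w a
  · have hvb := hv b h.1
    rw [if_pos h, if_pos (by rw [hva, hvb]; exact h.2), hvb]
    exact (R4h.two_choose (w b)).ge
  · rw [if_neg h]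
    exact Nat.zero_le _

/-- The main theorem. -/
theorem bounded2 (L : Type) [Field L] [CharZero L] {n : ℕ} {w : Fin n → ℕ} {m k : ℕ}
    (hk : 0 < k) (hkm : k ≤ m) (hw : ∀ a, w a ≤ m)
    (hfreq : ∀ i, k < w i → 2 * (w i * (w i + 1) * (w i + 2)) ≤
      ∑ j ∈ Finset.univ.filter (fun j => min 2 k ≤ w j ∧ w j < w i), w j * (w j + 1)) :
    ∃ F : MvPolynomial (Fin n × Fin 2) ℚ, F ≠ 0 ∧ ∀ P : Fin n → Fin 2 → L,
      MvPolynomial.aeval (fun ij : Fin n × Fin 2 => P ij.1 ij.2) F ≠ 0 →
        ∀ d : ℕ, ((m : ℝ) * (m + 1) * (m + 6 * Real.sqrt m + 10) ≤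
            ((max ((d + 1) * (d + 2)) (∑ i, (w i + 1).choose 2) : ℕ) : ℝ) ∧
          ((d + 2).choose 2 + 2 * (k + 1).choose 3 ≤ ∑ i, (w i + 1).choose 2 ∨
            ∑ i ∈ Finset.univ.filter (fun i => w i ≠ 1), (w i + 1).choose 2
                + 2 * (k + 1).choose 3 ≤ (d + 2).choose 2 ∨
            ∀ i, w i ≤ 1 ∨ k ≤ w i)) →
          ExpDim L w P d := by
  classical
  have hm : 0 < m := by omega
  have hnum : ∀ x, k < x → x * (x + 1) * (x + 3) + k * (k + 1) ≤ 2 * (x * (x + 1) * (x + 2)) :=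
    fun x hx => le_trans (by omega) (num_le hx)
  by_cases h3 : ∀ i, w i ≤ 1 ∨ k ≤ w i
  · have hR : ∀ d, Big m ((d + 1) * (d + 2)) →
        RkS (PF ℚ w) (Tset d) (min ((d + 2).choose 2) (Aw w)) := by
      intro d hB
      rcases Nat.lt_or_ge k 2 with hk2 | hk2
      · refine t_r42 ℚ k m hk hkm n w (fun a => ?_) ?_ d hB
        · have := hw a
          omega
        · intro a ha
          exact (hnum _ ha).trans ((hfreq a ha).trans
            (freq_sum w w k (fun _ _ => rfl) a ha))
      · have hw2 : ∀ a, w2 w a = 0 ∨ (k ≤ w2 w a ∧ w2 w a ≤ m) := by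
          intro a
          unfold w2
          have h1 := hw a
          have h2 := h3 a
          split_ifs with h4 <;> omega
        have h5 := t_r42 ℚ k m hk hkm n (w2 w) hw2 (by
          intro a ha
          have hwa : w2 w a = w a := by
            unfold w2 at ha ⊢
            split_ifs at ha ⊢ with h4
            · omega
            · rfl
          have h6 := freq_sum w (w2 w) k (fun b hb => by
            unfold w2
            rw [if_neg (by omega)]) a (by omega)
          rw [hwa] at ha h6 ⊢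
          exact (hnum _ ha).trans ((hfreq a ha).trans h6)) d hB
        rw [← coe_Tfin] at h5 ⊢
        have h6 := rk_simple T_RK (Tfin d) h5
        have hA := Aw_w2 w
        have h7 : min (Tfin d).card (min ((d + 2).choose 2) (Aw (w2 w)) +
            (Finset.univ.filter fun a => w a = 1).card) = min ((d + 2).choose 2) (Aw w) := by
          rw [card_Tfin']
          omega
        rw [h7] at h6
        exact h6
    obtain ⟨F, hF, hF'⟩ := fin_gen T_HOP L n w m hm hR
    exact ⟨F, hF, fun P hP d hd => hF' P hP d (big_max hd.1)⟩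
  · have hk2 : 2 ≤ k := by
      by_contra hlt
      exact h3 fun i => by omega
    have hwle : ∀ a, w2 w a ≤ m := by
      intro a
      unfold w2
      split_ifs
      · exact Nat.zero_le _
      · exact hw a
    have hc1 : Cnq w k 3 (4 * (k + 1).choose 3 + k * (k + 1)) := fun a ha =>
      (num_le ha).trans ((hfreq a ha).trans (freq_sum w w k (fun _ _ => rfl) a ha))
    have hc2 : Cnq (w2 w) k 3 (4 * (k + 1).choose 3 + k * (k + 1)) := by
      intro a ha
      have hwa : w2 w a = w a := by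
        unfold w2 at ha ⊢
        split_ifs at ha ⊢ with h4
        · omega
        · rfl
      have h6 := freq_sum w (w2 w) k (fun b hb => by
        unfold w2
        rw [if_neg (by omega)]) a (by omega)
      rw [hwa] at ha h6 ⊢
      exact (num_le ha).trans ((hfreq a ha).trans h6)
    have hWm : 2 * (k + 1).choose 3 ≤ 2 * (m + 1).choose 3 :=
      Nat.mul_le_mul_left _ (Nat.choose_le_choose 3 (by omega))
    obtain ⟨F, hF, hF'⟩ := fin_gen2 T_HOP L n w m (2 * (k + 1).choose 3) hm hWm
      (fun d hB hd => by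
        have h1 := (rank_thr2 T_STAB T_START t_x3 (T_TR T_RK) ℚ k m hk hkm n (w2 w) hwle d hB
          hc2).1 hd
        rw [← coe_Tfin] at h1 ⊢
        have h6 := rk_simple T_RK (Tfin d) h1
        have hA := Aw_w2 w
        rw [card_Tfin', ← hA] at h6
        exact h6)
      (fun d hB hd => (rank_thr2 T_STAB T_START t_x3 (T_TR T_RK) ℚ k m hk hkm n w hw d hB
          hc1).2 hd)
    refine ⟨F, hF, fun P hP d hd => hF' P hP d (big_max hd.1) ?_⟩
    rcases hd.2 with h | h | h
    · exact Or.inr h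
    · left
      rw [Aw_w2_eq]
      exact h
    · exact absurd h h3

end Pool.Agent.H932R7
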